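import Pool.Agent.H21.JN.Grp

/-!
# Module Frq (about 90 lines): one choice of the factors for frequently many pairs

PROOF. As in `necessary` (end of Pool/Agent/H4/JKx.lean): `𝒜 = SM b`, `Q` = a strict bound for all sizes; the properties `Fact`, `gen_snd` (for the
factors, which are not zero), `gen_rank`, `gen_hasType` hold for generic `p`, so by `att_at` for generic `p` there are `F_p`, `L_p`. Only the values of
`F_p` at the finitely many `s` in `Σ = T.2.toFinset.filter (Bad s ∧ count ≤ m)` matter and they lie in the finite set `Φ` of the factors of `GG 𝒜`. Let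
`Fun = Σ → Φ` (a finite type) and `P G p` = the statement for the function `F s = if h : s ∈ Σ then G ⟨s, h⟩ else 0`. For generic `p` there is a
`G` with `P G p`. If no `G` satisfies `∃ᶠ p in gen I, P G p` then `∀ G, ∀ᶠ p, ¬ P G p`, so `∀ᶠ p, ∀ G, ¬ P G p` (`Filter.eventually_all`), a contradiction
because `gen I` is not trivial (`gen_neBot`). The part `Stat` does not depend on `p`.
-/

namespace Pool.Agent.H21.JN

open MvPolynomial Module Pool.Agent.H4.JK

variable {I : Type} [Fintype I] [DecidableEq I]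

open Classical in
theorem exists_fix {g : Type} [LieRing g] [LieAlgebra ℂ g] (b : Basis I ℂ g)
    (T : Multiset ℕ × Multiset (Multiset ℕ)) (hinv : HasInvariant g T) (m : ℕ) :
    ∃ F : Multiset ℕ → MvPolynomial I ℂ, Stat (SM b) T m F ∧
      ∃ᶠ p in gen I, ∃ L : Submodule ℂ (I → ℂ), finrank ℂ L ≤ (T.1.map (· + 1)).sum ∧
        ∀ s ∈ T.2, Bad s → T.2.count s ≤ m → grd (F s) p.1 ∈ L := by
  obtain ⟨Q, hQ⟩ : ∃ Q : ℕ, ∀ s ∈ T.2, ∀ m ∈ s, m < Q := by
    refine ⟨(T.2.map Multiset.sum).sum + 1, ?_⟩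
    intro s hs m hm
    have h1 := Multiset.single_le_sum (fun x _ => Nat.zero_le x) m hm
    have h2 := Multiset.single_le_sum (fun x _ => Nat.zero_le x) s.sum
      (Multiset.mem_map_of_mem Multiset.sum hs)
    omega
  have h1 : ∀ᶠ p in gen I, ∀ f ∈ (UniqueFactorizationMonoid.factors (GG (SM b))).toFinset,
      Fact (SM b) f Q p := by
    rw [Filter.eventually_all_finset]
    intro f hf
    rw [Multiset.mem_toFinset] at hf
    exact gen_fact (SM_skew b) (SM_jac b) (SM_lin b)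
      (UniqueFactorizationMonoid.irreducible_of_factor f hf) Q
  have h2 : ∀ᶠ p in gen I, ∀ f ∈ (UniqueFactorizationMonoid.factors (GG (SM b))).toFinset,
      eval p.2 f ≠ 0 := by
    rw [Filter.eventually_all_finset]
    intro f hf
    rw [Multiset.mem_toFinset] at hf
    exact gen_snd (UniqueFactorizationMonoid.irreducible_of_factor f hf).ne_zero
  obtain ⟨Sg, hSg⟩ : ∃ Sg : Finset (Multiset ℕ),
      Sg = T.2.toFinset.filter (fun s => Bad s ∧ T.2.count s ≤ m) := ⟨_, rfl⟩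
  obtain ⟨Ph, hPh⟩ : ∃ Ph : Finset (MvPolynomial I ℂ),
      Ph = (UniqueFactorizationMonoid.factors (GG (SM b))).toFinset := ⟨_, rfl⟩
  have hmS : ∀ s, s ∈ T.2 → Bad s → T.2.count s ≤ m → s ∈ Sg := by
    intro s a1 a2 a3
    rw [hSg, Finset.mem_filter, Multiset.mem_toFinset]
    exact ⟨a1, a2, a3⟩
  let ext : (Sg → Ph) → Multiset ℕ → MvPolynomial I ℂ := fun G s =>
    if h : s ∈ Sg then (G ⟨s, h⟩ : MvPolynomial I ℂ) else 0
  let P : (Sg → Ph) → (I → ℂ) × (I → ℂ) → Prop := fun G p =>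
    Stat (SM b) T m (ext G) ∧ ∃ L : Submodule ℂ (I → ℂ),
      finrank ℂ L ≤ (T.1.map (· + 1)).sum ∧
        ∀ s ∈ T.2, Bad s → T.2.count s ≤ m → grd (ext G s) p.1 ∈ L
  have h3 : ∀ᶠ p in gen I, ∃ G, P G p := by
    filter_upwards [h1, h2, gen_rank (SM b), gen_hasType b hinv] with p a1 a2 a3 a4
    obtain ⟨F, c1, L, c2, c3⟩ := att_at (SM_skew b) (SM_lin b) T Q hQ
      (fun f hf => a1 f (Multiset.mem_toFinset.2 hf))
      (fun f hf => a2 f (Multiset.mem_toFinset.2 hf)) a3 a4 m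
    have hmem : ∀ s : Sg, F s ∈ Ph := by
      rintro ⟨s, hs⟩
      rw [hSg, Finset.mem_filter, Multiset.mem_toFinset] at hs
      rw [hPh, Multiset.mem_toFinset]
      exact c1.fac s hs.1 hs.2.1 hs.2.2
    have hext : ∀ s, s ∈ T.2 → Bad s → T.2.count s ≤ m →
        ext (fun s => ⟨F s, hmem s⟩) s = F s := by
      intro s d1 d2 d3
      show (if h : s ∈ Sg then F s else 0) = F s
      rw [dif_pos (hmS s d1 d2 d3)]
    refine ⟨fun s => ⟨F s, hmem s⟩, ⟨?_, ?_, ?_, ?_⟩, L, c2, ?_⟩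
    · intro s d1 d2 d3
      rw [hext s d1 d2 d3]
      exact c1.fac s d1 d2 d3
    · intro s d1 d2 d3
      rw [hext s d1 d2 d3]
      exact c1.deg s d1 d2 d3
    · intro s d1 d2 d3
      rw [hext s d1 d2 d3]
      exact c1.wt s d1 d2 d3
    · intro s d1 d2 d3 s' e1 e2 e3 hne
      rw [hext s d1 d2 d3, hext s' e1 e2 e3]
      exact c1.ne s d1 d2 d3 s' e1 e2 e3 hne
    · intro s d1 d2 d3
      rw [hext s d1 d2 d3]
      exact c3 s d1 d2 d3
  obtain ⟨G, hG⟩ : ∃ G, ∃ᶠ p in gen I, P G p := by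
    by_contra hno
    have h4 : ∀ G, ∀ᶠ p in gen I, ¬ P G p := by
      intro G
      rw [← Filter.not_frequently]
      exact fun h => hno ⟨G, h⟩
    have h5 : ∀ᶠ p in gen I, ∀ G, ¬ P G p := Filter.eventually_all.2 h4
    obtain ⟨p, ⟨G, hp⟩, hn⟩ := (h3.and h5).exists
    exact hn G hp
  obtain ⟨p0, hp0⟩ := hG.exists
  exact ⟨ext G, hp0.1, hG.mono fun p hp => hp.2⟩

end Pool.Agent.H21.JN
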