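import Pool.Agent.H21.JN.Ln

/-!
# Module Interp (about 110 lines): the gradient along a line

`line p f` has degree exactly `e` (`line_deg`, `line_coeff`, `h2`) and simple roots (`h3`).
PROOFS. `roots_card`: a polynomial of degree `e` over `ℂ` without multiple roots has `e` different roots
(`IsAlgClosed.card_roots_eq_natDegree` or `IsAlgClosed.splits`, `Polynomial.splits_iff_card_roots`; nodup by
`Polynomial.one_lt_rootMultiplicity_iff_isRoot`; the same argument is in Pool/Agent/H21/JR/Roots.lean, `chi_roots`); take
`(line p f).roots.toFinset`; `eval_line` (JKo).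
`grad_mem`: suppose the gradient at `t` is not in `L`; take a linear functional `ℓ` on `I → ℂ` which vanishes on `L` and not at the
gradient at `t` (`Submodule.exists_le_ker_of_notMem`); put `ℓ_i = ℓ (Pi.single i 1)` and `g = ∑ i, C (ℓ_i) * line p (pderiv i f)`; its degree is
less than `e` if `e ≥ 1` (`line_deg`, `grd_hom`), and it vanishes at the `e` roots; so `g = 0`
(`Polynomial.eq_zero_of_natDegree_lt_card_of_eval_eq_zero'`), hence `g.eval t = 0`, a contradiction. If `e = 0` then `f` is a constant and the
gradient is zero.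
-/

namespace Pool.Agent.H21.JN

open MvPolynomial Pool.Agent.H4.JK

variable {I : Type} [Fintype I] [DecidableEq I]

theorem roots_card {f : MvPolynomial I ℂ} {e : ℕ} (hf : f.IsHomogeneous e)
    {p : (I → ℂ) × (I → ℂ)} (h2 : eval p.2 f ≠ 0)
    (h3 : ∀ t, eval (pt p t) f = 0 → (Polynomial.derivative (line p f)).eval t ≠ 0) :
    ∃ R : Finset ℂ, R.card = e ∧ ∀ r ∈ R, eval (pt p r) f = 0 := by
  have hdeg : (line p f).natDegree = e :=
    Polynomial.natDegree_eq_of_le_of_coeff_ne_zero (line_deg hf p) (by rwa [line_coeff hf p])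
  have hne : line p f ≠ 0 := by
    intro h0
    apply h2
    rw [← line_coeff hf p, h0, Polynomial.coeff_zero]
  have hnd : (line p f).roots.Nodup := by
    rw [Multiset.nodup_iff_count_le_one]
    intro a
    rw [Polynomial.count_roots]
    by_contra hlt
    rw [not_le, Polynomial.one_lt_rootMultiplicity_iff_isRoot hne] at hlt
    obtain ⟨ha, hb⟩ := hlt
    exact h3 a (by rw [← eval_line]; exact ha) hb
  have hcard : Multiset.card (line p f).roots = (line p f).natDegree :=
    (Polynomial.splits_iff_card_roots.mp (IsAlgClosed.splits (line p f)))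
  refine ⟨(line p f).roots.toFinset, ?_, ?_⟩
  · rw [Multiset.toFinset_card_of_nodup hnd, hcard, hdeg]
  · intro r hr
    rw [Multiset.mem_toFinset, Polynomial.mem_roots hne] at hr
    rw [← eval_line]
    exact hr

theorem grad_mem {f : MvPolynomial I ℂ} {e : ℕ} (hf : f.IsHomogeneous e)
    {p : (I → ℂ) × (I → ℂ)} (h2 : eval p.2 f ≠ 0)
    (h3 : ∀ t, eval (pt p t) f = 0 → (Polynomial.derivative (line p f)).eval t ≠ 0)
    (L : Submodule ℂ (I → ℂ)) (hL : ∀ r, eval (pt p r) f = 0 → grd f (pt p r) ∈ L) (t : ℂ) :
    grd f (pt p t) ∈ L := by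
  rcases Nat.eq_zero_or_pos e with he | he
  · subst he
    have hc : f = C (coeff 0 f) := totalDegree_eq_zero_iff_eq_C.mp (Nat.le_zero.mp hf.totalDegree_le)
    have h0 : grd f (pt p t) = 0 := by
      funext i
      unfold grd
      rw [hc, pderiv_C, map_zero, Pi.zero_apply]
    rw [h0]
    exact L.zero_mem
  · by_contra hmem
    obtain ⟨l, hl1, hl2⟩ := Submodule.exists_le_ker_of_notMem hmem
    have hlv : ∀ v : I → ℂ, l v = ∑ i, l (Pi.single i 1) * v i := by
      intro v
      conv_lhs => rw [← Finset.univ_sum_single v]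
      rw [map_sum]
      refine Finset.sum_congr rfl fun i _ => ?_
      have h1 : (Pi.single i (v i) : I → ℂ) = v i • (Pi.single i 1 : I → ℂ) := by
        rw [← Pi.single_smul, smul_eq_mul, mul_one]
      rw [h1, map_smul, smul_eq_mul, mul_comm]
    set g : Polynomial ℂ := ∑ i, Polynomial.C (l (Pi.single i 1)) * line p (pderiv i f) with hg
    have hge : ∀ s, g.eval s = l (grd f (pt p s)) := by
      intro s
      rw [hg, Polynomial.eval_finsetSum, hlv]
      refine Finset.sum_congr rfl fun i _ => ?_
      rw [Polynomial.eval_mul, Polynomial.eval_C, eval_line]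
      rfl
    obtain ⟨R, hR1, hR2⟩ := roots_card hf h2 h3
    have hgd : g.natDegree < R.card := by
      rw [hR1]
      have h5 : g.natDegree ≤ e - 1 := by
        rw [hg]
        refine Polynomial.natDegree_sum_le_of_forall_le _ _ fun i _ => ?_
        exact (Polynomial.natDegree_C_mul_le _ _).trans (line_deg (grd_hom hf i) p)
      omega
    have hg0 : g = 0 := by
      refine Polynomial.eq_zero_of_natDegree_lt_card_of_eval_eq_zero' g R (fun r hr => ?_) hgd
      rw [hge]
      exact hl2 (hL r (hR2 r hr))
    apply hl1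
    rw [← hge t, hg0, Polynomial.eval_zero]

end Pool.Agent.H21.JN
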