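import Pool.Agent.H4.JKx

/-!
# Module Semi (about 90 lines): the equation of a bad hypersurface is a semi-invariant

PROOF of `semi`. At the root `r`: the gradient is in `Zs (LL 𝒜 p) r ≤ Es (LL 𝒜 p) r 1` (`Zs_le_Es`), so by `Es_one` (JKw)
`∑ i, eval (pt p r) (𝒜 j i) * (gradient)_i = 0`, and by skewness `eval (pt p r) (gj 𝒜 f j) = 0`. By `hF.F5` (contraposition) `f ∣ gj 𝒜 f j`,
say `gj 𝒜 f j = f * g`. Degrees: `totalDegree (pderiv i f) ≤ totalDegree f - 1`, `totalDegree (𝒜 i j) ≤ 1` (`hlin`), `0 < totalDegree f`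
(`irreducible_totalDegree`), so `totalDegree (gj 𝒜 f j) ≤ totalDegree f`; if `g ≠ 0` then `totalDegree (f * g) = totalDegree f + totalDegree g`
(`MvPolynomial.totalDegree_mul_of_isDomain`), so `totalDegree g = 0` and `g` is a constant
(`MvPolynomial.totalDegree_eq_zero_iff_eq_C`). The same argument is in `linear_root` (JKw) for linear `f`.
-/

namespace Pool.Agent.H21.JN

open MvPolynomial Pool.Agent.H4.JK

variable {I : Type} [Fintype I] [DecidableEq I]

private theorem semi_deg_lin {𝒜 : Matrix I I (MvPolynomial I ℂ)} (hlin : Lin 𝒜) (i j : I) :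
    (𝒜 i j).totalDegree ≤ 1 := by
  obtain ⟨c, hc⟩ := hlin i j
  rw [hc]
  apply totalDegree_finsetSum_le
  intro k _
  refine (totalDegree_mul _ _).trans ?_
  rw [totalDegree_C, totalDegree_X]

private theorem semi_deg {𝒜 : Matrix I I (MvPolynomial I ℂ)} (hlin : Lin 𝒜)
    {f : MvPolynomial I ℂ} (hf : Irreducible f) (j : I) :
    (gj 𝒜 f j).totalDegree ≤ f.totalDegree := by
  rw [gj]
  apply totalDegree_finsetSum_le
  intro i _
  refine (totalDegree_mul _ _).trans ?_
  have h1 := semi_deg_lin hlin i j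
  have h0 := irreducible_totalDegree hf
  by_cases h9 : pderiv i f = 0
  · rw [h9, totalDegree_zero]; omega
  · have := totalDegree_pderiv_lt f i h9
    omega

theorem semi {𝒜 : Matrix I I (MvPolynomial I ℂ)} (hA : 𝒜.transpose = -𝒜) (hlin : Lin 𝒜)
    {f : MvPolynomial I ℂ} (hf : Irreducible f) {Q : ℕ} {p : (I → ℂ) × (I → ℂ)}
    (hF : Fact 𝒜 f Q p) {r : ℂ} (hr : eval (pt p r) f = 0)
    (hz : (fun i => eval (pt p r) (pderiv i f)) ∈ Zs (LL 𝒜 p) r) :
    ∃ χ : I → ℂ, ∀ j, gj 𝒜 f j = C (χ j) * f := by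
  have hgj : ∀ j, f ∣ gj 𝒜 f j := by
    intro j
    by_contra hc
    apply hF.F5 j hc r hr
    rw [gj, map_sum]
    simp only [map_mul]
    have h3 := Es_one (Zs_le_Es _ _ 1 hz) j
    have h4 : ∀ i, eval (pt p r) (𝒜 i j) = - eval (pt p r) (𝒜 j i) := by
      intro i
      have := congrFun (congrFun hA j) i
      simp only [Matrix.transpose_apply, Matrix.neg_apply] at this
      rw [this, map_neg]
    simp only [h4, mul_neg, Finset.sum_neg_distrib, neg_eq_zero]
    rw [← h3]
    apply Finset.sum_congr rfl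
    intro i _
    ring
  have hc : ∀ j, ∃ c : ℂ, gj 𝒜 f j = C c * f := by
    intro j
    obtain ⟨g, hg⟩ := hgj j
    by_cases hg0 : g = 0
    · refine ⟨0, ?_⟩
      rw [hg, hg0, mul_zero, C_0, zero_mul]
    · have h1 := totalDegree_mul_of_isDomain hf.ne_zero hg0
      have h2 := semi_deg hlin hf j
      rw [hg, h1] at h2
      have h3 : g.totalDegree = 0 := by omega
      rw [totalDegree_eq_zero_iff_eq_C] at h3
      refine ⟨coeff 0 g, ?_⟩
      rw [hg, mul_comm f g]
      rw [← h3]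
  choose χ hχ using hc
  exact ⟨χ, hχ⟩

end Pool.Agent.H21.JN
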