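import Pool.Agent.H21.JN.Hom
import Pool.Agent.H21.JN.Semi
import Pool.Agent.H21.JN.Interp

/-!
# Module Grp (about 190 lines): a factor attached to every bad group

`Stat 𝒜 T m F`: the conditions on the factors `F s` which do not depend on the point `p`.

PROOF of `att_at`. Follow the beginning of `necessary_at` (Pool/Agent/H4/JKx.lean) word by word: `S`, `hL`, `hT1`, `hT2`, `hsz`, `hfE`, `hfZ`, `t0`,
`hinf`, `hEr`, and `hbad` in the following form: for EVERY `r` and every `f ∈ factors (GG 𝒜)` with `eval (pt p r) f = 0` and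
`Bad (sizesAt S (some (-r)))` the gradient at `pt p r` is in `Zs (LL 𝒜 p) r` (`F1`), and for every `r` with `Bad (sizesAt S (some (-r)))` there is a
factor `f` with the root `r` (`root_of_Es`). Let `s ∈ T.2` be bad: `s = sizesAt S (some (-r))` for some `some (-r) ∈ eigs S` (`hT2`, `hEr`); choose `r`,
and `F s` = the factor with the root `r` (`0` for all other `s`: `if h : .. then (choice) else 0`, or `choose`). `L = pull φ (fun i => KZ (bl i))`,
`finrank_Zt`. All roots `r'` of `F s` have the same group: `sizesAt S (some (-r')) = s` (`F2` and `multiset_ext_card` as in `huniq` of `necessary_at`); in particular they are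
bad, so the gradient at `pt p r'` is in `Zs (LL 𝒜 p) r' ≤ L` (`Zs_le_Zt`), and `grad_mem` (with `factor_hom`, `hnz`, `F3`) at `t = 0` gives the gradient at
`p.1 = pt p 0` (`simp [pt]`). Degree: `roots_card` gives `e = totalDegree (F s)` different roots, the eigenvalues `some (-r')` are different members of
`eigs S` with the group `s`, so `e ≤ T.2.count s ≤ m` (`T.2.count s` is the number of the members `μ` of `eigs S` with `sizesAt S μ = s`: `Multiset.count_map`).
Weight: `semi`. `ne`: if `F s ∣ F s'` then `F s'` vanishes at the root `r` of `F s`, whose group is `s`; but all roots of `F s'` have the group `s'`; so `s = s'`.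
-/

namespace Pool.Agent.H21.JN

open MvPolynomial Module Pool.Agent.H4.JK

variable {I : Type} [Fintype I] [DecidableEq I]

open Classical in
/-- The conditions on the factors attached to the bad groups of multiplicity at most `m`. -/
structure Stat (𝒜 : Matrix I I (MvPolynomial I ℂ)) (T : Multiset ℕ × Multiset (Multiset ℕ))
    (m : ℕ) (F : Multiset ℕ → MvPolynomial I ℂ) : Prop where
  fac : ∀ s ∈ T.2, Bad s → T.2.count s ≤ m → F s ∈ UniqueFactorizationMonoid.factors (GG 𝒜)
  deg : ∀ s ∈ T.2, Bad s → T.2.count s ≤ m → (F s).totalDegree ≤ m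
  wt : ∀ s ∈ T.2, Bad s → T.2.count s ≤ m → ∃ χ : I → ℂ, ∀ j, gj 𝒜 (F s) j = C (χ j) * F s
  ne : ∀ s ∈ T.2, Bad s → T.2.count s ≤ m → ∀ s' ∈ T.2, Bad s' → T.2.count s' ≤ m → s ≠ s' →
    ¬ F s ∣ F s'

open Classical in
theorem att_at {𝒜 : Matrix I I (MvPolynomial I ℂ)} (hA : 𝒜.transpose = -𝒜)
    (hlin : Lin 𝒜) {p : (I → ℂ) × (I → ℂ)} (T : Multiset ℕ × Multiset (Multiset ℕ))
    (Q : ℕ) (hQ : ∀ s ∈ T.2, ∀ m ∈ s, m < Q)
    (hfact : ∀ f ∈ UniqueFactorizationMonoid.factors (GG 𝒜), Fact 𝒜 f Q p)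
    (hnz : ∀ f ∈ UniqueFactorizationMonoid.factors (GG 𝒜), eval p.2 f ≠ 0)
    (hrank : ∀ y : I → ℂ, (𝒜.map (eval y)).rank ≤ (𝒜.map (eval p.2)).rank)
    (hT : HasType (mform (𝒜.map (eval p.1))) (mform (𝒜.map (eval p.2))) T) (m : ℕ) :
    ∃ F : Multiset ℕ → MvPolynomial I ℂ, Stat 𝒜 T m F ∧
      ∃ L : Submodule ℂ (I → ℂ), finrank ℂ L ≤ (T.1.map (· + 1)).sum ∧
        ∀ s ∈ T.2, Bad s → T.2.count s ≤ m → grd (F s) p.1 ∈ L := by
  obtain ⟨ι, hι, bl, hpos, hty, hdec⟩ := hT
  have hdec' := hdec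
  obtain ⟨φ, hφ⟩ := hdec
  set A := 𝒜.map (eval p.1) with hAdef
  set B := 𝒜.map (eval p.2) with hBdef
  set S := (Finset.univ : Finset ι).val.map bl with hS
  have hL : LL 𝒜 p = pen A B := line_lin hlin p
  have hT1 : T.1 = kronPart S := by rw [← hty]; rfl
  have hT2 : T.2 = (eigs S).val.map (sizesAt S) := by rw [← hty]; rfl
  -- sizes are positive and bounded
  have hsz : ∀ μ, ∀ m ∈ sizesAt S μ, 1 ≤ m ∧ m < Q := by
    intro μ m hm
    have hμ : μ ∈ eigs S := by
      by_contra h
      rw [sizesAt_of_notMem S μ h] at hm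
      simp at hm
    constructor
    · simp only [sizesAt, Multiset.mem_filterMap] at hm
      obtain ⟨b, hb, hb2⟩ := hm
      obtain ⟨i, -, rfl⟩ := Multiset.mem_map.1 hb
      rcases hbi : bl i with k | ⟨ν, m'⟩
      · rw [hbi] at hb2; simp at hb2
      · rw [hbi] at hb2
        simp only at hb2
        split_ifs at hb2
        simp only [Option.some.injEq] at hb2
        subst hb2
        have := hpos i
        rw [hbi] at this
        exact this
    · apply hQ (sizesAt S μ) _ m hm
      rw [hT2]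
      exact Multiset.mem_map_of_mem _ hμ
  have hfE : ∀ r q, 1 ≤ q → finrank ℂ (Es (LL 𝒜 p) r q) = (kronPart S).card +
      2 * ((sizesAt S (some (-r))).filter (q ≤ ·)).card := by
    intro r q hq
    rw [hL]
    exact finrank_Es φ hφ hpos r q hq
  have hfZ : ∀ r, finrank ℂ (Zs (LL 𝒜 p) r) = (kronPart S).card := by
    intro r
    rw [hL]
    exact finrank_Zs φ hφ hpos r
  -- a value which is not an eigenvalue
  obtain ⟨t0, ht0⟩ : ∃ t : ℂ, some (-t) ∉ eigs S := by
    have h1 : (((eigs S).preimage (fun t : ℂ => some (-t))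
      (by intro x _ y _ hxy; simpa using hxy) : Finset ℂ) : Set ℂ) ≠ Set.univ := by
      intro h2
      exact Set.infinite_univ (h2 ▸ Finset.finite_toSet _)
    obtain ⟨t, ht⟩ := (Set.ne_univ_iff_exists_notMem _).1 h1
    exact ⟨t, fun h3 => ht (Finset.mem_coe.2 (Finset.mem_preimage.2 h3))⟩
  have hEt0 : finrank ℂ (Es (LL 𝒜 p) t0 1) = (kronPart S).card := by
    rw [hfE t0 1 le_rfl, sizesAt_of_notMem S _ ht0]
    simp
  -- infinity is not an eigenvalue
  have hinf : none ∉ eigs S := by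
    intro h
    have h1 := finrank_inf hdec' hpos h
    have h2 : Es (LL 𝒜 p) t0 1 = LinearMap.ker (𝒜.map (eval (pt p t0))).mulVecLin := by
      ext v
      rw [LinearMap.mem_ker, Matrix.mulVecLin_apply]
      constructor
      · intro hv
        funext j
        exact Es_one hv j
      · intro hv
        apply mem_Es_one
        intro j
        exact congrFun hv j
    rw [h2] at hEt0
    have h3 := LinearMap.finrank_range_add_finrank_ker B.mulVecLin
    have h4 := LinearMap.finrank_range_add_finrank_ker (𝒜.map (eval (pt p t0))).mulVecLin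
    have h5 := hrank (pt p t0)
    have h6 : B.rank = finrank ℂ (LinearMap.range B.mulVecLin) := rfl
    rw [← hS] at h1
    have h7 : (𝒜.map (eval (pt p t0))).rank =
      finrank ℂ (LinearMap.range (𝒜.map (eval (pt p t0))).mulVecLin) := rfl
    rw [h6, h7] at h5
    omega
  have hEr : ∀ μ ∈ eigs S, ∃ r : ℂ, μ = some (-r) := by
    intro μ hμ
    rcases μ with _ | μ
    · exact absurd hμ hinf
    · exact ⟨-μ, by rw [neg_neg]⟩
  -- the numbers at a bad eigenvalue
  have hnum : ∀ r, Bad (sizesAt S (some (-r))) → ∃ m, 1 ≤ m ∧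
      Es (LL 𝒜 p) r (m + 1) ≤ Zs (LL 𝒜 p) r ∧
      finrank ℂ (Zs (LL 𝒜 p) r) + 3 ≤ finrank ℂ (Es (LL 𝒜 p) r m) := by
    rintro r ⟨m, hm1, hm2⟩
    have hm0 : 1 ≤ m := by
      have : m ∈ sizesAt S (some (-r)) := Multiset.one_le_count_iff_mem.1 (by omega)
      exact (hsz _ m this).1
    have h1 := hfE r m hm0
    have h2 := hfZ r
    have h3 := count_le_card_filter (sizesAt S (some (-r))) m
    refine ⟨m, hm0, ?_, ?_⟩
    · rw [hL]
      exact Es_le_Zs φ hφ r (m + 1) (by omega) (fun m' hm' => Nat.lt_succ_of_le (hm2 m' hm'))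
    · rw [h1, h2]
      omega
  have hgrad : ∀ f ∈ UniqueFactorizationMonoid.factors (GG 𝒜), ∀ r, eval (pt p r) f = 0 →
      Bad (sizesAt S (some (-r))) → grd f (pt p r) ∈ Zs (LL 𝒜 p) r := by
    intro f hf r hfr hb
    obtain ⟨m, hm0, h4, h5⟩ := hnum r hb
    exact (hfact f hf).F1 r hfr m hm0 h4 h5
  have hroot : ∀ r, Bad (sizesAt S (some (-r))) →
      ∃ f ∈ UniqueFactorizationMonoid.factors (GG 𝒜), eval (pt p r) f = 0 := by
    intro r hb
    obtain ⟨m, hm0, h4, h5⟩ := hnum r hb
    have h6 : ¬ Es (LL 𝒜 p) r 1 ≤ Zs (LL 𝒜 p) r := by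
      intro h
      have h7 := Submodule.finrank_mono ((Es_anti (LL 𝒜 p) r hm0).trans h)
      omega
    exact root_of_Es hA p r h6
  have hsame : ∀ f ∈ UniqueFactorizationMonoid.factors (GG 𝒜), ∀ r r', eval (pt p r) f = 0 →
      eval (pt p r') f = 0 → sizesAt S (some (-r')) = sizesAt S (some (-r)) := by
    intro f hf r r' hr hr'
    apply multiset_ext_card _ _ Q (hsz _) (hsz _)
    intro q hq
    have h2 := (hfact f hf).F2 r' r hr' hr q hq
    rw [hfE r' (q + 1) (by omega), hfE r (q + 1) (by omega)] at h2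
    omega
  -- the factors
  have hex : ∀ s : Multiset ℕ, ∃ f : MvPolynomial I ℂ, s ∈ T.2 → Bad s →
      f ∈ UniqueFactorizationMonoid.factors (GG 𝒜) ∧
      ∃ r, sizesAt S (some (-r)) = s ∧ eval (pt p r) f = 0 := by
    intro s
    by_cases h : s ∈ T.2 ∧ Bad s
    · obtain ⟨h1, h2⟩ := h
      rw [hT2] at h1
      obtain ⟨μ, hμ, hμs⟩ := Multiset.mem_map.1 h1
      obtain ⟨r, rfl⟩ := hEr μ hμ
      obtain ⟨f, hf, hfr⟩ := hroot r (by rw [hμs]; exact h2)
      exact ⟨f, fun _ _ => ⟨hf, r, hμs, hfr⟩⟩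
    · exact ⟨0, fun h1 h2 => absurd ⟨h1, h2⟩ h⟩
  choose F hF using hex
  have hall : ∀ s (hs : s ∈ T.2) (hb : Bad s), ∀ r, eval (pt p r) (F s) = 0 →
      sizesAt S (some (-r)) = s := by
    intro s hs hb r hr
    obtain ⟨hf, r0, h1, h2⟩ := hF s hs hb
    rw [hsame (F s) hf r0 r h2 hr, h1]
  refine ⟨F, ⟨fun s hs hb _ => (hF s hs hb).1, ?_, ?_, ?_⟩, pull φ (fun i => KZ (bl i)), ?_, ?_⟩
  · -- the degree
    intro s hs hb hc
    obtain ⟨hf, -⟩ := hF s hs hb
    obtain ⟨R, hR1, hR2⟩ := roots_card (factor_hom hlin hf) (hnz _ hf) (hfact _ hf).F3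
    rw [← hR1]
    refine le_trans ?_ hc
    rw [hT2, Multiset.count_map]
    have hinj : Function.Injective (fun r : ℂ => (some (-r) : Option ℂ)) := by
      intro x y hxy
      simpa using hxy
    rw [← Finset.card_image_of_injective R hinj]
    have hsub : R.image (fun r : ℂ => (some (-r) : Option ℂ)) ⊆
        (eigs S).filter (fun μ => s = sizesAt S μ) := by
      intro μ hμ
      obtain ⟨r, hr, rfl⟩ := Finset.mem_image.1 hμ
      have h1 := hall s hs hb r (hR2 r hr)
      rw [Finset.mem_filter]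
      refine ⟨?_, h1.symm⟩
      by_contra h2
      rw [sizesAt_of_notMem S _ h2] at h1
      rw [← h1] at hb
      obtain ⟨m', hm', -⟩ := hb
      simp at hm'
    exact Finset.card_le_card hsub
  · -- the weight
    intro s hs hb _
    obtain ⟨hf, r, h1, h2⟩ := hF s hs hb
    exact semi hA hlin (UniqueFactorizationMonoid.irreducible_of_factor _ hf) (hfact _ hf) h2
      (hgrad _ hf r h2 (by rw [h1]; exact hb))
  · -- different groups
    intro s hs hb _ s' hs' hb' _ hne hdvd
    obtain ⟨-, r, h1, h2⟩ := hF s hs hb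
    apply hne
    obtain ⟨g, hg⟩ := hdvd
    have h3 : eval (pt p r) (F s') = 0 := by rw [hg, map_mul, h2, zero_mul]
    rw [← h1, hall s' hs' hb' r h3]
  · -- the dimension
    rw [finrank_Zt, hT1]
  · -- the gradients
    intro s hs hb _
    obtain ⟨hf, -⟩ := hF s hs hb
    have h := grad_mem (factor_hom hlin hf) (hnz _ hf) (hfact _ hf).F3
      (pull φ (fun i => KZ (bl i))) (fun r hr => by
        have h1 := hgrad _ hf r hr (by rw [hall s hs hb r hr]; exact hb)
        rw [hL] at h1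
        exact Zs_le_Zt φ hφ r h1) 0
    have h2 : pt p 0 = p.1 := by
      funext i
      simp [pt]
    rwa [h2] at h

end Pool.Agent.H21.JN
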