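import Pool.Agent.H4.JKx

/-!
# Module Hom (about 110 lines): factors of a homogeneous polynomial are homogeneous

PROOF of `hom_of_dvd`. Let `Ψ : MvPolynomial I ℂ →+* Polynomial (MvPolynomial I ℂ)`, `x_i ↦ C (X i) * X`
(`eval₂Hom (Polynomial.C.comp C) ..`), so `(Ψ f).coeff n` is the homogeneous component of degree `n` of `f` (check on monomials). For
homogeneous `g` of degree `N`: `Ψ g = C g * X ^ N`. If `g = f * h` then `Ψ f * Ψ h = C g * X ^ N`; the ring of coefficients is a domain, so
`natDegree` and `natTrailingDegree` are additive (`Polynomial.natDegree_mul`, `Polynomial.natTrailingDegree_mul`) and both equal `N` on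
the product; `natTrailingDegree ≤ natDegree` for both factors, so they agree for `Ψ f`: `Ψ f` is a monomial, `f` has only one
nonzero homogeneous component, of degree `n`, and then `n = totalDegree f` (`IsHomogeneous.totalDegree`). (Any other proof is fine,
for instance with the lowest and the highest homogeneous components of `f` and `h`.)
`GG_hom`: the entries of `𝒜` are homogeneous of degree one (`hlin`), the determinant of a matrix of size `n` is homogeneous of degree `n`
(`Matrix.det_apply`, `IsHomogeneous.sum`, `IsHomogeneous.prod`, the sign is a scalar), and products of homogeneous polynomials are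
homogeneous (`IsHomogeneous.prod`). Compare the proof of `GG_scale` in Pool/Agent/H4/JKu.lean. `factor_hom`: both together, `GG_ne`,
`UniqueFactorizationMonoid.dvd_of_mem_factors`.
-/

namespace Pool.Agent.H21.JN

open MvPolynomial Pool.Agent.H4.JK

variable {I : Type} [Fintype I] [DecidableEq I]

/-- homogeneous components as coefficients of a polynomial in one more variable. -/
noncomputable def Hom_psi : MvPolynomial I ℂ →ₐ[ℂ] Polynomial (MvPolynomial I ℂ) :=
  aeval (fun i => Polynomial.C (X i) * Polynomial.X)

omit [Fintype I] [DecidableEq I] in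
private theorem Hom_psi_monomial (d : I →₀ ℕ) (a : ℂ) :
    Hom_psi (monomial d a) = Polynomial.C (monomial d a) * Polynomial.X ^ d.degree := by
  rw [Hom_psi, aeval_monomial]
  have h1 : (d.prod fun i k => (Polynomial.C (X i : MvPolynomial I ℂ) * Polynomial.X) ^ k)
      = Polynomial.C (d.prod fun i k => (X i : MvPolynomial I ℂ) ^ k)
        * Polynomial.X ^ d.degree := by
    simp only [Finsupp.prod, mul_pow, Finset.prod_mul_distrib, map_prod, map_pow]
    rw [Finset.prod_pow_eq_pow_sum]
    rfl
  rw [h1, ← mul_assoc, monomial_eq, Polynomial.C_mul]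
  rfl

omit [Fintype I] [DecidableEq I] in
private theorem Hom_psi_hom {g : MvPolynomial I ℂ} {N : ℕ} (hg : g.IsHomogeneous N) :
    Hom_psi g = Polynomial.C g * Polynomial.X ^ N := by
  conv_lhs => rw [g.as_sum]
  conv_rhs => rw [g.as_sum]
  rw [map_sum, map_sum, Finset.sum_mul]
  apply Finset.sum_congr rfl
  intro d hd
  rw [Hom_psi_monomial]
  have h1 := hg (mem_support_iff.1 hd)
  have h2 : d.degree = N := by
    rw [← h1, Finsupp.degree_eq_weight_one]
    rfl
  rw [h2]

omit [Fintype I] [DecidableEq I] in
private theorem Hom_psi_coeff (f : MvPolynomial I ℂ) (n : ℕ) :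
    (Hom_psi f).coeff n = homogeneousComponent n f := by
  conv_lhs => rw [← sum_homogeneousComponent f]
  rw [map_sum, Polynomial.finsetSum_coeff]
  have h1 : ∀ i ∈ Finset.range (f.totalDegree + 1),
      (Hom_psi (homogeneousComponent i f)).coeff n
        = if n = i then homogeneousComponent i f else 0 := by
    intro i _
    rw [Hom_psi_hom (homogeneousComponent_isHomogeneous i f), Polynomial.coeff_C_mul_X_pow]
  rw [Finset.sum_congr rfl h1, Finset.sum_ite_eq]
  split_ifs with h
  · rfl
  · rw [homogeneousComponent_eq_zero]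
    simp only [Finset.mem_range, not_lt] at h
    omega

theorem hom_of_dvd {f g : MvPolynomial I ℂ} {N : ℕ} (hg : g.IsHomogeneous N) (hg0 : g ≠ 0)
    (h : f ∣ g) : f.IsHomogeneous f.totalDegree := by
  obtain ⟨k, rfl⟩ := h
  have hf0 : f ≠ 0 := left_ne_zero_of_mul hg0
  have hk0 : k ≠ 0 := right_ne_zero_of_mul hg0
  have hinj : ∀ a : MvPolynomial I ℂ, a ≠ 0 → Hom_psi a ≠ 0 := by
    intro a ha h0
    apply ha
    rw [← sum_homogeneousComponent a]
    apply Finset.sum_eq_zero
    intro i _
    rw [← Hom_psi_coeff, h0, Polynomial.coeff_zero]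
  have h1 : Hom_psi f * Hom_psi k = Polynomial.C (f * k) * Polynomial.X ^ N := by
    rw [← map_mul, Hom_psi_hom hg]
  have hpf := hinj f hf0
  have hpk := hinj k hk0
  have h2 : (Hom_psi f).natDegree + (Hom_psi k).natDegree = N := by
    rw [← Polynomial.natDegree_mul hpf hpk, h1, Polynomial.natDegree_C_mul_X_pow _ _ hg0]
  have h3 : (Hom_psi f).natTrailingDegree + (Hom_psi k).natTrailingDegree = N := by
    rw [← Polynomial.natTrailingDegree_mul hpf hpk, h1, Polynomial.C_mul_X_pow_eq_monomial,
      Polynomial.natTrailingDegree_monomial hg0]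
  have h4 := Polynomial.natTrailingDegree_le_natDegree (Hom_psi f)
  have h5 := Polynomial.natTrailingDegree_le_natDegree (Hom_psi k)
  have h6 : ∀ i, i ≠ (Hom_psi f).natDegree → homogeneousComponent i f = 0 := by
    intro i hi
    rw [← Hom_psi_coeff]
    rcases lt_or_gt_of_ne hi with h | h
    · exact Polynomial.coeff_eq_zero_of_lt_natTrailingDegree (n := i) (p := Hom_psi f) (by omega)
    · exact Polynomial.coeff_eq_zero_of_natDegree_lt h
  have h7 : f.IsHomogeneous (Hom_psi f).natDegree := by
    have h8 : f = homogeneousComponent (Hom_psi f).natDegree f := by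
      conv_lhs => rw [← sum_homogeneousComponent f]
      rw [Finset.sum_eq_single (Hom_psi f).natDegree]
      · intro b _ hb
        exact h6 b hb
      · intro hb
        apply homogeneousComponent_eq_zero
        simp only [Finset.mem_range, not_lt] at hb
        omega
    have h9 := homogeneousComponent_isHomogeneous (Hom_psi f).natDegree f
    rwa [← h8] at h9
  rw [h7.totalDegree hf0]
  exact h7

theorem GG_hom {𝒜 : Matrix I I (MvPolynomial I ℂ)} (hlin : Lin 𝒜) :
    ∃ N, (GG 𝒜).IsHomogeneous N := by
  classical
  refine ⟨∑ W ∈ (Finset.univ : Finset (Finset I)).filter (fun W : Finset I => PM 𝒜 W ≠ 0),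
    Fintype.card W, ?_⟩
  rw [GG]
  apply IsHomogeneous.prod
  intro W _
  rw [PM, Matrix.det_apply]
  apply IsHomogeneous.sum
  intro σ _
  have h1 : (∏ i : W, (𝒜.submatrix (fun i : W => (i : I)) (fun i : W => (i : I))) (σ i) i
      ).IsHomogeneous (Fintype.card W) := by
    have h2 := IsHomogeneous.prod (Finset.univ : Finset W)
      (fun i : W => (𝒜.submatrix (fun i : W => (i : I)) (fun i : W => (i : I))) (σ i) i)
      (fun _ => 1) (fun i _ => by
        obtain ⟨c, hc⟩ := hlin (σ i : W) i
        simp only [Matrix.submatrix_apply, hc]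
        apply IsHomogeneous.sum
        intro k _
        exact isHomogeneous_C_mul_X _ _)
    have h3 : ∑ _i ∈ (Finset.univ : Finset W), 1 = Fintype.card W := by simp
    rw [h3] at h2
    exact h2
  rcases Int.units_eq_one_or (Equiv.Perm.sign σ) with h | h
  · rw [h, one_smul]
    exact h1
  · rw [h, Units.neg_smul, one_smul]
    exact h1.neg

theorem factor_hom {𝒜 : Matrix I I (MvPolynomial I ℂ)} (hlin : Lin 𝒜) {f : MvPolynomial I ℂ}
    (hf : f ∈ UniqueFactorizationMonoid.factors (GG 𝒜)) : f.IsHomogeneous f.totalDegree := by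
  obtain ⟨N, hN⟩ := GG_hom hlin
  exact hom_of_dvd hN (GG_ne 𝒜) (UniqueFactorizationMonoid.dvd_of_mem_factors hf)

end Pool.Agent.H21.JN
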