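import Mathlib

/-!
# Module JLi (about 60 lines): joint eigenvectors with different characters are independent

PROOF. As `eigen_li` in Pool/Agent/H4/JKu.lean: by contradiction take a nontrivial relation `∑ c_j v_j = 0` with the smallest
support (or induction over the finite set of the indices, `linearIndependent_iff'`); two indices `j ≠ j'` of the support have
`χ j k ≠ χ j' k` for some `k`; apply `T k - χ j k`: the new relation has the coefficients `c_i (χ i k - χ j k)`, a smaller support
(without `j`) and is not trivial (`j'`). Base: a single vector is not zero.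
-/

namespace Pool.Agent.H21.JN

private theorem jli_aux {V : Type} [AddCommGroup V] [Module ℂ V] {K J : Type} (T : K → V →ₗ[ℂ] V)
    (v : J → V) (χ : J → K → ℂ) (hv : ∀ j, v j ≠ 0) (h : ∀ j k, T k (v j) = χ j k • v j)
    (hinj : Function.Injective χ) (s : Finset J) :
    ∀ g : J → ℂ, ∑ j ∈ s, g j • v j = 0 → ∀ j ∈ s, g j = 0 := by
  classical
  induction s using Finset.induction_on with
  | empty => intro g _ j hj; simp at hj
  | insert a s ha ih =>
    intro g hg
    rw [Finset.sum_insert ha] at hg
    have hs : ∀ j ∈ s, g j = 0 := by
      intro j hj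
      have hja : χ j ≠ χ a := fun he => ha (hinj he ▸ hj)
      obtain ⟨k, hk⟩ := Function.ne_iff.mp hja
      have h1 : ∑ i ∈ s, (g i * (χ i k - χ a k)) • v i = 0 := by
        have h2 := congrArg (fun x => T k x - χ a k • x) hg
        simp only [map_add, map_sum, map_smul, h, map_zero, smul_zero, sub_zero] at h2
        have h3 : ∑ i ∈ s, (g i * (χ i k - χ a k)) • v i =
            g a • χ a k • v a + ∑ i ∈ s, g i • χ i k • v i -
              χ a k • (g a • v a + ∑ i ∈ s, g i • v i) := by
          rw [smul_add, Finset.smul_sum, smul_comm (χ a k) (g a) (v a), add_sub_add_left_eq_sub,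
            ← Finset.sum_sub_distrib]
          apply Finset.sum_congr rfl
          intro i _
          rw [smul_smul, smul_smul, ← sub_smul]
          congr 1
          ring
        rw [h3, h2]
      have h4 := ih _ h1 j hj
      rcases mul_eq_zero.mp h4 with h5 | h5
      · exact h5
      · exact absurd (sub_eq_zero.mp h5) hk
    intro j hj
    rcases Finset.mem_insert.mp hj with rfl | hj
    · rw [Finset.sum_eq_zero (fun i hi => by rw [hs i hi, zero_smul]), add_zero] at hg
      exact (smul_eq_zero.mp hg).resolve_right (hv j)
    · exact hs j hj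

theorem joint_li {V : Type} [AddCommGroup V] [Module ℂ V] {K J : Type} (T : K → V →ₗ[ℂ] V)
    (v : J → V) (χ : J → K → ℂ) (hv : ∀ j, v j ≠ 0) (h : ∀ j k, T k (v j) = χ j k • v j)
    (hinj : Function.Injective χ) : LinearIndependent ℂ v := by
  rw [linearIndependent_iff']
  exact fun s g hg => jli_aux T v χ hv h hinj s g hg

end Pool.Agent.H21.JN
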