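import Pool.Agent.H21.JN.Ln

/-!
# Module JacA (about 80 lines): vanishing of the minors of the Jacobian matrix

PROOF. Let `Δ` be the determinant. Suppose `Δ ≠ 0`. By `gen_fst` (JKm) `∀ᶠ p in gen I, eval p.1 Δ ≠ 0`; together with `h`
(`Filter.Frequently.and_eventually`, `Filter.Frequently.exists`) there is `p` with `eval p.1 Δ ≠ 0` and a subspace `L`, `finrank L ≤ c`,
which contains all `grd (f j) p.1`. The set of the polynomials `g` with `grd g p.1 ∈ L` is a submodule, so it contains the span of the
`f j` (`Submodule.span_induction`), in particular all `g b`. The `c + 1` vectors `grd (g b) p.1` of `L` are linearly dependent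
(`finrank ≤ c`: `LinearIndependent.fintype_card_le_finrank` for the vectors in `L`), so there is `λ ≠ 0` with `∑ b, λ b • grd (g b) p.1 = 0`;
the matrix `(eval p.1 (pderiv (τ a) (g b)))` kills `λ`, so its determinant is zero (`Matrix.exists_mulVec_eq_zero_iff`), and it is
`eval p.1 Δ` (`RingHom.map_det`). Contradiction.
-/

namespace Pool.Agent.H21.JN

open MvPolynomial Module Pool.Agent.H4.JK

variable {I : Type} [Fintype I] [DecidableEq I]

set_option linter.unusedSectionVars false in
theorem jacaux_grd_mem {J : Type} (f : J → MvPolynomial I ℂ) (x : I → ℂ)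
    (L : Submodule ℂ (I → ℂ)) (hL : ∀ j, grd (f j) x ∈ L) (g : MvPolynomial I ℂ)
    (hg : g ∈ Submodule.span ℂ (Set.range f)) : grd g x ∈ L := by
  refine Submodule.span_induction (p := fun g _ => grd g x ∈ L) ?_ ?_ ?_ ?_ hg
  · rintro _ ⟨j, rfl⟩
    exact hL j
  · have h0 : grd (0 : MvPolynomial I ℂ) x = 0 := by
      funext i
      simp [grd]
    rw [h0]
    exact L.zero_mem
  · intro u v _ _ hu hv
    have h1 : grd (u + v) x = grd u x + grd v x := by
      funext i
      simp [grd]
    rw [h1]
    exact L.add_mem hu hv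
  · intro a u _ hu
    have h1 : grd (a • u) x = a • grd u x := by
      funext i
      simp [grd, smul_eval]
    rw [h1]
    exact L.smul_mem a hu

theorem det_zero {J : Type} (f : J → MvPolynomial I ℂ) (c : ℕ)
    (h : ∃ᶠ p in gen I, ∃ L : Submodule ℂ (I → ℂ), finrank ℂ L ≤ c ∧ ∀ j, grd (f j) p.1 ∈ L)
    (g : Fin (c + 1) → MvPolynomial I ℂ) (hg : ∀ b, g b ∈ Submodule.span ℂ (Set.range f))
    (τ : Fin (c + 1) → I) :
    (Matrix.of fun a b => pderiv (τ a) (g b)).det = 0 := by
  by_contra hne
  obtain ⟨p, ⟨L, hL, hfL⟩, hp⟩ := (h.and_eventually (gen_fst hne)).exists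
  have hgL : ∀ b, grd (g b) p.1 ∈ L := fun b => jacaux_grd_mem f p.1 L hfL (g b) (hg b)
  have hdep : ¬ LinearIndependent ℂ (fun b => (⟨grd (g b) p.1, hgL b⟩ : L)) := by
    intro hli
    have h1 := hli.fintype_card_le_finrank
    rw [Fintype.card_fin] at h1
    omega
  rw [Fintype.not_linearIndependent_iff] at hdep
  obtain ⟨lam, hlam, b₀, hb₀⟩ := hdep
  have hsum : ∀ i, ∑ b, lam b * eval p.1 (pderiv i (g b)) = 0 := by
    intro i
    have h1 := congrArg (fun v : L => (v : I → ℂ) i) hlam
    simpa [grd, Finset.sum_apply] using h1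
  have hdet : (Matrix.of fun a b => eval p.1 (pderiv (τ a) (g b))).det = 0 := by
    rw [← Matrix.exists_mulVec_eq_zero_iff]
    refine ⟨lam, ?_, ?_⟩
    · intro h0
      exact hb₀ (congrFun h0 b₀)
    · funext a
      have h1 := hsum (τ a)
      simp only [Matrix.mulVec, dotProduct, Matrix.of_apply, Pi.zero_apply]
      rw [← h1]
      exact Finset.sum_congr rfl fun b _ => mul_comm _ _
  apply hp
  rw [RingHom.map_det]
  exact hdet

end Pool.Agent.H21.JN
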