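import Mathlib

/-!
# Module JacB (about 130 lines): leading exponents

PROOF. Put `α b = mo.degree (g b)` and `θ a b = X (τ a) * pderiv (τ a) (g b)`. The coefficient of `θ a b` at `β` is
`β (τ a) * coeff β (g b)` (check on monomials: `MvPolynomial.pderiv_monomial`, or with `coeff_X_mul'` and the coefficients of `pderiv`), so it vanishes
unless `β` is in the support of `g b`, in particular `β ≤ α b` in the monomial order (`MonomialOrder.le_degree`).
FACT: if polynomials `q b` have `mo.toSyn β ≤ mo.toSyn (α b)` for all `β` in the support of `q b`, then the coefficient of `∏ b, q b` at `∑ b, α b` is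
`∏ b, coeff (α b) (q b)` (induction over the finite set: in a product of two polynomials `coeff_mul` is a sum over the pairs
`β + γ = α + α'`; if `β < α` then `γ > α'` by the strict monotonicity of the addition; only `(α, α')` remains; compare
`MonomialOrder.coeff_mul_of_add_of_degree_le` or similar in Mathlib/RingTheory/MvPolynomial/MonomialOrder.lean).
Then `det θ = (∏ a, X (τ a)) * det (pderiv (τ a) (g b)) = 0` (`Matrix.det_mul_column` / `Matrix.det_mul_row`), and its coefficient at `∑ b, α b` is
(`Matrix.det_apply`) `∑ σ, sign σ * ∏ b, (α b (τ (σ b)) * coeff (α b) (g b)) = (∏ b, coeff (α b) (g b)) * det (α b (τ a))`. The leading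
coefficients are not zero (`mo.leadingCoeff_ne_zero_iff`), so the last determinant is zero.
-/

namespace Pool.Agent.H21.JN

open MvPolynomial

variable {I : Type}

/-- coefficients of the Euler derivative. -/
theorem coeff_theta (i : I) (f : MvPolynomial I ℂ) (β : I →₀ ℕ) :
    (X i * pderiv i f).coeff β = (β i : ℂ) * f.coeff β := by
  classical
  rw [coeff_X_mul']
  split_ifs with h
  · rw [coeff_pderiv]
    have h1 : β i ≠ 0 := by simpa using h
    have h2 : β - Finsupp.single i 1 + Finsupp.single i 1 = β :=
      tsub_add_cancel_of_le (by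
        rw [Finsupp.single_le_iff]
        omega)
    rw [h2, mul_comm]
    congr 1
    have h3 : (β - Finsupp.single i 1 : I →₀ ℕ) i + 1 = β i := by
      rw [Finsupp.coe_tsub, Pi.sub_apply, Finsupp.single_eq_same]
      omega
    exact_mod_cast h3
  · have h1 : β i = 0 := by simpa using h
    rw [h1]
    simp

/-- the coefficient of a product at the sum of upper bounds of the degrees. -/
theorem coeff_prod_le (mo : MonomialOrder I) {ι : Type} (s : Finset ι)
    (P : ι → MvPolynomial I ℂ) (α : ι → I →₀ ℕ)
    (h : ∀ b ∈ s, mo.toSyn (mo.degree (P b)) ≤ mo.toSyn (α b)) :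
    mo.toSyn (mo.degree (∏ b ∈ s, P b)) ≤ mo.toSyn (∑ b ∈ s, α b) ∧
      (∏ b ∈ s, P b).coeff (∑ b ∈ s, α b) = ∏ b ∈ s, (P b).coeff (α b) := by
  classical
  induction s using Finset.induction_on with
  | empty => simp
  | insert b s hb ih =>
    obtain ⟨ih1, ih2⟩ := ih (fun c hc => h c (Finset.mem_insert_of_mem hc))
    have hb' := h b (Finset.mem_insert_self _ _)
    rw [Finset.prod_insert hb, Finset.sum_insert hb, Finset.prod_insert hb]
    refine ⟨?_, ?_⟩
    · refine le_trans mo.degree_mul_le ?_
      rw [map_add, map_add]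
      exact add_le_add hb' ih1
    · rw [mo.coeff_mul_of_add_of_degree_le hb' ih1, ih2]

theorem lead_det (mo : MonomialOrder I) (c : ℕ) (g : Fin (c + 1) → MvPolynomial I ℂ)
    (hg : ∀ b, g b ≠ 0) (τ : Fin (c + 1) → I)
    (h : (Matrix.of fun a b => pderiv (τ a) (g b)).det = 0) :
    (Matrix.of fun a b => ((mo.degree (g b) (τ a) : ℕ) : ℂ)).det = 0 := by
  classical
  have h1 : (Matrix.of fun a b => X (τ a) * pderiv (τ a) (g b)).det = 0 := by
    have := Matrix.det_mul_column (fun a => (X (τ a) : MvPolynomial I ℂ))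
      (Matrix.of fun a b => pderiv (τ a) (g b))
    rw [h, mul_zero] at this
    exact this
  have hdeg : ∀ (a b : Fin (c + 1)),
      mo.toSyn (mo.degree (X (τ a) * pderiv (τ a) (g b))) ≤ mo.toSyn (mo.degree (g b)) := by
    intro a b
    by_cases h0 : X (τ a) * pderiv (τ a) (g b) = 0
    · rw [h0, mo.degree_zero, map_zero]
      exact mo.zero_le _
    · refine mo.le_degree ?_
      rw [mem_support_iff]
      intro h2
      have h3 : (X (τ a) * pderiv (τ a) (g b)).coeff
          (mo.degree (X (τ a) * pderiv (τ a) (g b))) ≠ 0 := mo.leadingCoeff_ne_zero_iff.mpr h0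
      rw [coeff_theta, h2, mul_zero] at h3
      exact h3 rfl
  have h2 : (Matrix.of fun a b => X (τ a) * pderiv (τ a) (g b)).det.coeff
      (∑ b, mo.degree (g b)) = (∏ b, (g b).coeff (mo.degree (g b))) *
        (Matrix.of fun a b => ((mo.degree (g b) (τ a) : ℕ) : ℂ)).det := by
    rw [Matrix.det_apply, Matrix.det_apply, coeff_sum, Finset.mul_sum]
    refine Finset.sum_congr rfl fun σ _ => ?_
    have h3 : (∏ b, (Matrix.of fun a b => X (τ a) * pderiv (τ a) (g b)) (σ b) b).coeff
        (∑ b, mo.degree (g b)) = ∏ b, (((mo.degree (g b) (τ (σ b)) : ℕ) : ℂ)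
          * (g b).coeff (mo.degree (g b))) := by
      have h4 := (coeff_prod_le mo Finset.univ
        (fun b => X (τ (σ b)) * pderiv (τ (σ b)) (g b)) (fun b => mo.degree (g b))
        (fun b _ => hdeg (σ b) b)).2
      simp only [Matrix.of_apply]
      rw [h4]
      exact Finset.prod_congr rfl fun b _ => coeff_theta _ _ _
    rw [Finset.prod_mul_distrib] at h3
    have h5 : ∀ (u : ℤˣ) (p : MvPolynomial I ℂ) (d : I →₀ ℕ), (u • p).coeff d = u • p.coeff d := by
      intro u p d
      rcases Int.units_eq_one_or u with rfl | rfl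
      · simp
      · rw [Units.neg_smul, Units.neg_smul, one_smul, one_smul, coeff_neg]
    rw [h5, h3, mul_comm, mul_smul_comm]
    simp only [Matrix.of_apply]
  rw [h1, coeff_zero] at h2
  have h3 : (∏ b, (g b).coeff (mo.degree (g b))) ≠ 0 :=
    Finset.prod_ne_zero_iff.mpr fun b _ => mo.leadingCoeff_ne_zero_iff.mpr (hg b)
  rcases mul_eq_zero.mp h2.symm with h4 | h4
  · exact absurd h4 h3
  · exact h4

end Pool.Agent.H21.JN
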