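import Pool.Agent.H4.JKx

/-!
# Module JacC (about 110 lines): counting exponents

PROOF. Let `M : Matrix E I ℂ`, `M α i = α i`, and `k = M.rank`. `k ≤ c`: otherwise `exists_minor` (JKt) gives a nonzero minor of size `k ≥ c + 1`;
a nonzero minor of size `c + 1` follows (the rank of a submatrix with `c + 1` independent columns: simply use `M.rank ≥ c + 1`, so there are `c + 1`
linearly independent columns, and in this submatrix `c + 1` linearly independent rows; or apply `exists_minor` to a submatrix of rank exactly `c + 1`),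
against `h` (the minor has rows `α b` and columns `τ a`; it is the transposed matrix, `Matrix.det_transpose`).
`exists_cols` (JKt) gives columns `t : Fin k → I` which are linearly independent; the column space has dimension `k`, so every column of
`M` is a linear combination of the columns `t j`: for each `i` there are `λ j` with `α i = ∑ j, λ j * α (t j)` for all `α ∈ E`. So the map
`E → (Fin k → Fin (m + 1))`, `α ↦ (α (t j))_j` (well defined by `hE`) is injective, and `E.card ≤ (m + 1) ^ k ≤ (m + 1) ^ c`.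
-/

namespace Pool.Agent.H21.JN

open Pool.Agent.H4.JK

variable {I : Type} [Fintype I] [DecidableEq I]

private theorem JacC_rank_le {E : Finset (I →₀ ℕ)} (c : ℕ)
    (h : ∀ α : Fin (c + 1) → I →₀ ℕ, (∀ b, α b ∈ E) → ∀ τ : Fin (c + 1) → I,
      (Matrix.of fun a b => ((α b (τ a) : ℕ) : ℂ)).det = 0) :
    (Matrix.of fun (α : E) (i : I) => ((α.1 i : ℕ) : ℂ)).rank ≤ c := by
  by_contra hc
  rw [not_le] at hc
  obtain ⟨t, ht⟩ := exists_cols (Matrix.of fun (α : E) (i : I) => ((α.1 i : ℕ) : ℂ)) _ rfl
  have hle : c + 1 ≤ (Matrix.of fun (α : E) (i : I) => ((α.1 i : ℕ) : ℂ)).rank := hc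
  set t' : Fin (c + 1) → I := fun j => t (Fin.castLE hle j) with ht'
  set N : Matrix E (Fin (c + 1)) ℂ :=
    (Matrix.of fun (α : E) (i : I) => ((α.1 i : ℕ) : ℂ)).submatrix id t' with hN
  have h1 : LinearIndependent ℂ N.transpose.row :=
    ht.comp (Fin.castLE hle) (Fin.castLE_injective hle)
  have h2 : N.rank = c + 1 := by
    have h3 := h1.rank_matrix
    rw [Matrix.rank_transpose, Fintype.card_fin] at h3
    exact h3
  obtain ⟨s, u, hsu⟩ := exists_minor N (c + 1) h2
  apply hsu
  have h4 := h (fun b => (s b).1) (fun b => (s b).2) (fun a => t' (u a))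
  rw [← Matrix.det_transpose] at h4
  exact h4

theorem card_le_pow {E : Finset (I →₀ ℕ)} (m c : ℕ) (hE : ∀ α ∈ E, ∀ i, α i ≤ m)
    (h : ∀ α : Fin (c + 1) → I →₀ ℕ, (∀ b, α b ∈ E) → ∀ τ : Fin (c + 1) → I,
      (Matrix.of fun a b => ((α b (τ a) : ℕ) : ℂ)).det = 0) : E.card ≤ (m + 1) ^ c := by
  classical
  have hrk := JacC_rank_le c h
  set M : Matrix E I ℂ := Matrix.of fun (α : E) (i : I) => ((α.1 i : ℕ) : ℂ) with hM
  obtain ⟨κ, a, ha, hsp, hli⟩ := exists_linearIndependent' ℂ M.col
  have hκ : Finite κ := Finite.of_injective a ha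
  have hκ' : Fintype κ := Fintype.ofFinite κ
  have h1 : Fintype.card κ ≤ c := by
    have h2 : Fintype.card κ = M.rank := by
      rw [Matrix.rank_eq_finrank_span_cols, ← hsp, finrank_span_eq_card hli]
    rw [h2]; exact hrk
  let φ : E → (κ → Fin (m + 1)) := fun α j => ⟨α.1 (a j), Nat.lt_succ_of_le (hE α.1 α.2 (a j))⟩
  have hφ : Function.Injective φ := by
    intro α β hαβ
    have h3 : ∀ j : κ, M.col (a j) α = M.col (a j) β := by
      intro j
      have h4 := congrArg Fin.val (congrFun hαβ j)
      have h5 : α.1 (a j) = β.1 (a j) := h4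
      show ((α.1 (a j) : ℕ) : ℂ) = ((β.1 (a j) : ℕ) : ℂ)
      rw [h5]
    have h6 : ∀ v ∈ Submodule.span ℂ (Set.range M.col), v α = v β := by
      intro v hv
      rw [← hsp] at hv
      induction hv using Submodule.span_induction with
      | mem x hx =>
        obtain ⟨j, rfl⟩ := hx
        exact h3 j
      | zero => rfl
      | add x y _ _ hx hy => rw [Pi.add_apply, Pi.add_apply, hx, hy]
      | smul r x _ hx => rw [Pi.smul_apply, Pi.smul_apply, hx]
    apply Subtype.ext
    apply Finsupp.ext
    intro i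
    have h7 := h6 (M.col i) (Submodule.subset_span ⟨i, rfl⟩)
    have h8 : ((α.1 i : ℕ) : ℂ) = ((β.1 i : ℕ) : ℂ) := h7
    exact_mod_cast h8
  have h9 := Fintype.card_le_of_injective φ hφ
  rw [Fintype.card_coe, Fintype.card_pi, Finset.prod_const, Fintype.card_fin, Finset.card_univ] at h9
  exact h9.trans (Nat.pow_le_pow_right (Nat.succ_pos m) h1)

end Pool.Agent.H21.JN
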