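import Pool.Agent.H21.JN.JacA
import Pool.Agent.H21.JN.JacB
import Pool.Agent.H21.JN.JacC

/-!
# Module JacD: a bound for linearly independent polynomials with dependent gradients
-/

namespace Pool.Agent.H21.JN

open MvPolynomial Module Pool.Agent.H4.JK

variable {I : Type} [Fintype I] [DecidableEq I]

theorem jdaux_monomialOrder (I : Type) [Fintype I] : Nonempty (MonomialOrder.{0, 0} I) := by
  classical
  let _ : LinearOrder I := LinearOrder.lift' (Fintype.equivFin I) (Fintype.equivFin I).injective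
  exact ⟨MonomialOrder.lex⟩

theorem jac_bound {J : Type} [Fintype J] (f : J → MvPolynomial I ℂ)
    (hli : LinearIndependent ℂ f) (m c : ℕ) (hdeg : ∀ j, (f j).totalDegree ≤ m)
    (h : ∃ᶠ p in gen I, ∃ L : Submodule ℂ (I → ℂ), finrank ℂ L ≤ c ∧ ∀ j, grd (f j) p.1 ∈ L) :
    Fintype.card J ≤ (m + 1) ^ c := by
  obtain ⟨mo⟩ := jdaux_monomialOrder I
  set V : Submodule ℂ (MvPolynomial I ℂ) := Submodule.span ℂ (Set.range f) with hV
  have hVdeg : ∀ g ∈ V, g.totalDegree ≤ m := by
    intro g hg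
    have h1 : V ≤ restrictTotalDegree I ℂ m := by
      rw [hV, Submodule.span_le]
      rintro _ ⟨j, rfl⟩
      exact (mem_restrictTotalDegree I m (f j)).2 (hdeg j)
    exact (mem_restrictTotalDegree I m g).1 (h1 hg)
  have hVle : ∀ g ∈ V, g ≠ 0 → ∀ i, mo.degree g i ≤ m := by
    intro g hg hg0 i
    have h1 : mo.degree g ∈ g.support := mo.degree_mem_support hg0
    have h2 := le_totalDegree h1
    have h3 : mo.degree g i ≤ (mo.degree g).sum fun _ e => e := by
      rw [Finsupp.sum_fintype _ _ (fun _ => rfl)]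
      exact Finset.single_le_sum (f := fun i => mo.degree g i) (fun _ _ => Nat.zero_le _)
        (Finset.mem_univ i)
    exact h3.trans (h2.trans (hVdeg g hg))
  set S : Set (I →₀ ℕ) := {β | ∃ g ∈ V, g ≠ 0 ∧ mo.degree g = β} with hS
  have hSfin : S.Finite := by
    apply (Set.finite_Icc (0 : I →₀ ℕ) (Finsupp.equivFunOnFinite.symm fun _ => m)).subset
    rintro β ⟨g, hg, hg0, rfl⟩
    refine ⟨zero_le, fun i => ?_⟩
    simpa using hVle g hg hg0 i
  have hE : ∀ α ∈ hSfin.toFinset, ∀ i, α i ≤ m := by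
    intro α hα i
    rw [Set.Finite.mem_toFinset] at hα
    obtain ⟨g, hg, hg0, rfl⟩ := hα
    exact hVle g hg hg0 i
  have hdet : ∀ α : Fin (c + 1) → I →₀ ℕ, (∀ b, α b ∈ hSfin.toFinset) →
      ∀ τ : Fin (c + 1) → I, (Matrix.of fun a b => ((α b (τ a) : ℕ) : ℂ)).det = 0 := by
    intro α hα τ
    have h1 : ∀ b, ∃ g ∈ V, g ≠ 0 ∧ mo.degree g = α b := by
      intro b
      have := hα b
      rwa [Set.Finite.mem_toFinset] at this
    choose g hg hg0 hgα using h1
    have h2 := lead_det mo c g hg0 τ (det_zero f c h g hg τ)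
    simpa only [hgα] using h2
  have hcard := card_le_pow m c hE hdet
  refine le_trans ?_ hcard
  rw [← finrank_span_eq_card hli, ← hV]
  let Φ : V →ₗ[ℂ] (hSfin.toFinset → ℂ) :=
    LinearMap.pi fun β => (lcoeff ℂ β.1) ∘ₗ V.subtype
  have hΦ : Function.Injective Φ := by
    rw [← LinearMap.ker_eq_bot, LinearMap.ker_eq_bot']
    rintro ⟨g, hg⟩ hg1
    by_contra hg0
    have hg0' : g ≠ 0 := fun h0 => hg0 (Subtype.ext h0)
    have h3 : mo.degree g ∈ hSfin.toFinset := by
      rw [Set.Finite.mem_toFinset]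
      exact ⟨g, hg, hg0', rfl⟩
    have h4 := congrFun hg1 ⟨mo.degree g, h3⟩
    have h5 : coeff (mo.degree g) g = 0 := h4
    exact (mem_support_iff.1 (mo.degree_mem_support hg0')) h5
  have h6 := LinearMap.finrank_le_finrank_of_injective hΦ
  rw [Module.finrank_fintype_fun_eq_card, Fintype.card_coe] at h6
  exact h6

end Pool.Agent.H21.JN
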