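import Pool.Agent.H4.JKx

/-!
# Module Ln (about 90 lines): homogeneous polynomials on a line
-/

namespace Pool.Agent.H21.JN

open MvPolynomial Pool.Agent.H4.JK

variable {I : Type} [Fintype I] [DecidableEq I]

/-- The gradient at a point. -/
noncomputable def grd (f : MvPolynomial I ℂ) (x : I → ℂ) : I → ℂ := fun i => eval x (pderiv i f)

set_option linter.unusedSectionVars false in
theorem lnaux_line_eq_sum (p : (I → ℂ) × (I → ℂ)) (g : MvPolynomial I ℂ) :
    line p g = ∑ d ∈ g.support, Polynomial.C (coeff d g) *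
      ∏ i, (Polynomial.C (p.1 i) + Polynomial.X * Polynomial.C (p.2 i)) ^ d i := by
  change eval₂ _ _ g = _
  rw [eval₂_eq']

set_option linter.unusedSectionVars false in
theorem lnaux_lin_natDegree (a b : ℂ) :
    (Polynomial.C a + Polynomial.X * Polynomial.C b).natDegree ≤ 1 := by
  rw [add_comm, mul_comm]
  exact Polynomial.natDegree_linear_le

set_option linter.unusedSectionVars false in
theorem lnaux_prod_natDegree (p : (I → ℂ) × (I → ℂ)) (d : I →₀ ℕ) (s : Finset I) :
    (∏ i ∈ s, (Polynomial.C (p.1 i) + Polynomial.X * Polynomial.C (p.2 i)) ^ d i).natDegree ≤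
      ∑ i ∈ s, d i := by
  refine (Polynomial.natDegree_prod_le _ _).trans ?_
  apply Finset.sum_le_sum
  intro i _
  refine Polynomial.natDegree_pow_le.trans ?_
  calc d i * _ ≤ d i * 1 := Nat.mul_le_mul_left _ (lnaux_lin_natDegree _ _)
    _ = d i := mul_one _

set_option linter.unusedSectionVars false in
theorem lnaux_prod_coeff (p : (I → ℂ) × (I → ℂ)) (d : I →₀ ℕ) (s : Finset I) :
    (∏ i ∈ s, (Polynomial.C (p.1 i) + Polynomial.X * Polynomial.C (p.2 i)) ^ d i).coeff
      (∑ i ∈ s, d i) = ∏ i ∈ s, p.2 i ^ d i := by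
  induction s using Finset.induction_on with
  | empty => simp
  | insert a s ha ih =>
    rw [Finset.prod_insert ha, Finset.sum_insert ha, Finset.prod_insert ha]
    rw [Polynomial.coeff_mul_add_eq_of_natDegree_le _ (lnaux_prod_natDegree p d s), ih]
    · congr 1
      have h := Polynomial.coeff_pow_of_natDegree_le (m := d a) (lnaux_lin_natDegree (p.1 a) (p.2 a))
      rw [mul_one] at h
      rw [h]
      simp [Polynomial.coeff_C]
    · refine Polynomial.natDegree_pow_le.trans ?_
      calc d a * _ ≤ d a * 1 := Nat.mul_le_mul_left _ (lnaux_lin_natDegree _ _)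
        _ = d a := mul_one _

set_option linter.unusedSectionVars false in
theorem lnaux_hom_sum {g : MvPolynomial I ℂ} {d : ℕ} (hg : g.IsHomogeneous d) {m : I →₀ ℕ}
    (hm : m ∈ g.support) : ∑ i, m i = d := by
  have h := hg (mem_support_iff.1 hm)
  rw [Finsupp.weight_apply] at h
  rw [← h, Finsupp.sum_fintype]
  · simp
  · simp

theorem line_deg {g : MvPolynomial I ℂ} {d : ℕ} (hg : g.IsHomogeneous d)
    (p : (I → ℂ) × (I → ℂ)) : (line p g).natDegree ≤ d := by
  rw [lnaux_line_eq_sum]
  apply Polynomial.natDegree_sum_le_of_forall_le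
  intro m hm
  refine (Polynomial.natDegree_C_mul_le _ _).trans ?_
  refine (lnaux_prod_natDegree p m Finset.univ).trans ?_
  rw [lnaux_hom_sum hg hm]

theorem line_coeff {g : MvPolynomial I ℂ} {d : ℕ} (hg : g.IsHomogeneous d)
    (p : (I → ℂ) × (I → ℂ)) : (line p g).coeff d = eval p.2 g := by
  rw [lnaux_line_eq_sum, eval_eq', Polynomial.finsetSum_coeff]
  apply Finset.sum_congr rfl
  intro m hm
  rw [Polynomial.coeff_C_mul, ← lnaux_hom_sum hg hm, lnaux_prod_coeff]

theorem grd_hom {g : MvPolynomial I ℂ} {d : ℕ} (hg : g.IsHomogeneous d) (i : I) :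
    (pderiv i g).IsHomogeneous (d - 1) := by
  exact hg.pderiv

theorem euler {g : MvPolynomial I ℂ} {d : ℕ} (hg : g.IsHomogeneous d) :
    ∑ i, X i * pderiv i g = (d : MvPolynomial I ℂ) * g := by
  have h := hg.sum_X_mul_pderiv
  rw [h, nsmul_eq_mul]

end Pool.Agent.H21.JN
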