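import Pool.Agent.H4.JKx

/-!
# Module LowP (about 130 lines): kernel curves of small degree have a constant direction

PROOF. Follow `deg_one` and `block_deg_one` (Pool/Agent/H4/JKs.lean). `y t = (fun i => (z i).eval t)` is in `Zs (pen A B) t` for all `t`
(definition), so `φ (y t) i ∈ ChB (bl i) t p` for all `p` (`Zs_le_Es`, `Es_eq_pull`). Jordan block: the component is zero
(`ChB_le_KZ` with a large `p`). Block `kron k`, `k ≠ 0`: by `pair_kron` the component `w` has `w.1 = 0` and
`w.2 j = (-t) ^ (k - j) * w.2 (last)`; the coordinates of `φ (y t) i` are polynomials in `t` of degree at most `d` (`φ` is linear: expand in the basis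
`Pi.single`), so `P 0 = (-X) ^ k * P last` with `natDegree (P 0) ≤ d < k` gives `P last = 0` (compare degrees) and the component is zero. Block
`kron 0`: there is at most one such index `i0` (`hone` in the proof of `deg_one`), and `W (.kron 0)` is one-dimensional: the component is
`P(t) • e`. So `φ (y t) = P(t) • E` with a fixed vector `E` (or `0`), `y t = P(t) • φ.symm E`, and the products agree:
`P(t) u_i P(t') u_j = P(t) u_j P(t') u_i`.
-/

namespace Pool.Agent.H21.JN

open Module Pool.Agent.H4.JK

variable {I : Type} [Fintype I] [DecidableEq I] {A B : Matrix I I ℂ}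
  {ι : Type} [Fintype ι] {bl : ι → Block}

private def lowP_coord (k : ℕ) (j : Fin (k + 1)) : W (.kron k) →ₗ[ℂ] ℂ where
  toFun w := w.2 j
  map_add' _ _ := rfl
  map_smul' _ _ := rfl

private theorem lowP_block (b : Block) (d : ℕ) (h : ∀ k, b = .kron k → d < k) (y : ℂ → W b)
    (hmem : ∀ (t : ℂ) (p : ℕ), y t ∈ ChB b t p)
    (hpoly : ∀ ℓ : W b →ₗ[ℂ] ℂ, ∃ P : Polynomial ℂ, P.natDegree ≤ d ∧ ∀ t, P.eval t = ℓ (y t))
    (t : ℂ) : y t = 0 := by
  rcases b with k | ⟨μ, m⟩
  · have hk : d < k := h k rfl
    have h5 : ∀ t : ℂ, (y t : W (.kron k)).1 = 0 ∧ ∀ j : Fin (k + 1),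
        (y t : W (.kron k)).2 j = (-t) ^ (k - j : ℕ) *
          (y t : W (.kron k)).2 (Fin.last k) := fun t =>
      (pair_kron k 1 le_rfl t _).1 (hmem t 1)
    obtain ⟨P0, hP0, hP0e⟩ := hpoly (lowP_coord k 0)
    obtain ⟨P1, _, hP1e⟩ := hpoly (lowP_coord k (Fin.last k))
    have h6 : P0 = (-Polynomial.X) ^ k * P1 := by
      apply Polynomial.funext
      intro t
      rw [hP0e, Polynomial.eval_mul, Polynomial.eval_pow, Polynomial.eval_neg, Polynomial.eval_X,
        hP1e]
      exact (h5 t).2 0
    have h7 : P1 = 0 := by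
      by_contra hne
      have h8 : ((-Polynomial.X : Polynomial ℂ) ^ k * P1).natDegree = k + P1.natDegree := by
        rw [Polynomial.natDegree_mul (pow_ne_zero _ (neg_ne_zero.2 Polynomial.X_ne_zero)) hne,
          Polynomial.natDegree_pow, Polynomial.natDegree_neg, Polynomial.natDegree_X, mul_one]
      rw [← h6] at h8
      omega
    refine Prod.ext (h5 t).1 ?_
    funext j
    have h9 := (h5 t).2 j
    have h10 : (y t : W (.kron k)).2 (Fin.last k) = 0 := by
      have h11 := hP1e t
      rw [h7, Polynomial.eval_zero] at h11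
      exact h11.symm
    rw [h10, mul_zero] at h9
    exact h9
  · exact ChB_le_KZ (.jordan μ m) t (m + 1) (by omega) (by
        intro m' hm'
        simp only [Block.jordan.injEq] at hm'
        omega) (hmem t (m + 1))

private theorem lowP_zero (b : Block) (hb : b = .kron 0) : ∃ e : W b, ∀ w : W b, ∃ c : ℂ,
    w = c • e := by
  subst hb
  refine ⟨((fun j => j.elim0 : Fin 0 → ℂ), (fun _ => 1 : Fin 1 → ℂ)), fun w => ⟨w.2 (0 : Fin 1), ?_⟩⟩
  refine Prod.ext ?_ ?_
  · funext j
    exact j.elim0
  · funext j
    have hj : j = (0 : Fin 1) := Fin.ext (by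
      have := j.2
      change (j : ℕ) < 0 + 1 at this
      show (j : ℕ) = 0
      omega)
    rw [hj]
    show w.2 (0 : Fin 1) = w.2 (0 : Fin 1) * 1
    rw [mul_one]

theorem low_prop (φ : (I → ℂ) ≃ₗ[ℂ] ((i : ι) → W (bl i)))
    (hφ : ∀ v w, mform A v w = sumForm bl Block.PA (φ v) (φ w) ∧
      mform B v w = sumForm bl Block.PB (φ v) (φ w)) (d : ℕ)
    (hK : ∀ k ∈ kronPart (Finset.univ.val.map bl), k ≠ 0 → d < k)
    (h0 : (kronPart (Finset.univ.val.map bl)).count 0 ≤ 1) (z : I → Polynomial ℂ)
    (hz : (pen A B).mulVec z = 0) (hd : ∀ i, (z i).natDegree ≤ d) (t t' : ℂ) (i j : I) :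
    (z i).eval t * (z j).eval t' = (z j).eval t * (z i).eval t' := by
  classical
  set y : ℂ → I → ℂ := fun t i => (z i).eval t with hy
  have hmem : ∀ t, y t ∈ Zs (pen A B) t := fun t => ⟨z, hz, fun i => rfl⟩
  have hc : ∀ t i p, φ (y t) i ∈ ChB (bl i) t p := by
    intro t i p
    have := Zs_le_Es _ _ p (hmem t)
    rw [Es_eq_pull φ hφ] at this
    exact this i
  have hone : ∀ i j, bl i = .kron 0 → bl j = .kron 0 → i = j := by
    intro i j hi hj
    by_contra hij
    have h2 : ({.kron 0, .kron 0} : Multiset Block) ≤ Finset.univ.val.map bl := by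
      have h3 : ({i, j} : Finset ι).val.map bl ≤ Finset.univ.val.map bl :=
        Multiset.map_le_map (Finset.val_le_iff.2 (Finset.subset_univ _))
      have h4 : ({i, j} : Finset ι).val.map bl = {.kron 0, .kron 0} := by
        rw [Finset.insert_val_of_notMem (by simpa using hij)]
        simp [hi, hj]
      rw [h4] at h3
      exact h3
    have h3 : ({0, 0} : Multiset ℕ) ≤ kronPart (Finset.univ.val.map bl) := by
      have h4 := Multiset.filterMap_le_filterMap (fun b : Block => match b with
        | .kron k => some k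
        | .jordan _ _ => none) h2
      exact h4
    have h4 := Multiset.count_le_of_le 0 h3
    simp at h4
    omega
  have hsum : ∀ t, y t = ∑ l, (z l).eval t • (Pi.single l (1 : ℂ) : I → ℂ) := by
    intro t
    funext i
    rw [Finset.sum_apply, Finset.sum_eq_single i]
    · rw [Pi.smul_apply, Pi.single_eq_same, smul_eq_mul, mul_one]
    · intro l _ hl
      rw [Pi.smul_apply, Pi.single_eq_of_ne (Ne.symm hl), smul_zero]
    · intro hi
      exact absurd (Finset.mem_univ i) hi
  have hzero : ∀ i, bl i ≠ .kron 0 → ∀ t, φ (y t) i = 0 := by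
    intro i hi t
    refine lowP_block (bl i) d ?_ (fun t => φ (y t) i) (fun t p => hc t i p) ?_ t
    · intro k hk
      apply hK k
      · simp only [kronPart, Multiset.mem_filterMap, Multiset.mem_map]
        exact ⟨.kron k, ⟨i, Finset.mem_univ _, hk⟩, rfl⟩
      · rintro rfl
        exact hi hk
    · intro ℓ
      refine ⟨∑ l, z l * Polynomial.C (ℓ (φ (Pi.single l (1 : ℂ)) i)), ?_, ?_⟩
      · apply Polynomial.natDegree_sum_le_of_forall_le
        intro l _
        exact (Polynomial.natDegree_mul_C_le _ _).trans (hd l)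
      · intro t
        rw [Polynomial.eval_finsetSum]
        show _ = ℓ (φ (y t) i)
        rw [hsum t, map_sum, Finset.sum_apply, map_sum]
        apply Finset.sum_congr rfl
        intro l _
        rw [Polynomial.eval_mul, Polynomial.eval_C, map_smul, Pi.smul_apply, map_smul, smul_eq_mul]
  have hfin : ∃ (u : I → ℂ) (p : ℂ → ℂ), ∀ t, y t = p t • u := by
    by_cases hex : ∃ i, bl i = .kron 0
    · obtain ⟨i0, hi0⟩ := hex
      obtain ⟨e, he⟩ := lowP_zero (bl i0) hi0
      choose c hcc using he
      refine ⟨φ.symm (Pi.single i0 e), fun t => c (φ (y t) i0), fun t => ?_⟩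
      apply φ.injective
      rw [map_smul, LinearEquiv.apply_symm_apply]
      funext l
      by_cases hl : l = i0
      · subst hl
        rw [Pi.smul_apply, Pi.single_eq_same]
        exact hcc _
      · rw [Pi.smul_apply, Pi.single_eq_of_ne hl, smul_zero]
        exact hzero l (fun h => hl (hone l i0 h hi0)) t
    · push Not at hex
      refine ⟨0, fun _ => 0, fun t => ?_⟩
      rw [smul_zero]
      apply φ.injective
      rw [map_zero]
      funext l
      exact hzero l (hex l) t
  obtain ⟨u, p, hup⟩ := hfin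
  have e : ∀ t i, (z i).eval t = p t * u i := by
    intro t i
    have := congrFun (hup t) i
    exact this
  rw [e, e, e, e]
  ring

end Pool.Agent.H21.JN
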