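import Pool.Agent.H21.JN.Ln

/-!
# Module TwoS (about 140 lines): two semi-invariants of the same degree and weight

PROOF. Put `v i = f * pderiv i f' - f' * pderiv i f`. (1) `∑ j, 𝒜 i j * v j = 0`: by skewness `∑ j, 𝒜 i j * pderiv j f = - gj 𝒜 f i = - C (χ i) * f`
and the same for `f'`. (2) `v ≠ 0`: if all `v i = 0` then `f ∣ f' * pderiv i f`, `f` is prime and does not divide `f'`, so `f ∣ pderiv i f`,
`pderiv i f = 0` (`pderiv_zero_of_dvd`) for all `i`, against `exists_pderiv_ne`. (3) `v i` is homogeneous of degree `2 * e - 1` (`e ≥ 1` because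
`f` is irreducible: `irreducible_totalDegree`, `IsHomogeneous.totalDegree`; `grd_hom`). (4) For generic `p` the polynomials `z i = line p (v i)`
satisfy `(LL 𝒜 p).mulVec z = 0` (apply the ring homomorphism `line p` to (1)) and `natDegree (z i) ≤ 2 * e - 1` (`line_deg`). By `h`
`(z i).eval 0 * (z j).eval t' = (z j).eval 0 * (z i).eval t'` for all `t'`, i.e. `C ((z i).eval 0) * z j = C ((z j).eval 0) * z i`; compare the coefficients
of `X ^ (2 * e - 1)` (`line_coeff`): `eval p.1 (v i) * eval p.2 (v j) = eval p.1 (v j) * eval p.2 (v i)` for generic `p`.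
(5) So the polynomial `rename inl (v i) * rename inr (v j) - rename inl (v j) * rename inr (v i)` in `MvPolynomial (I ⊕ I) ℂ` is zero (otherwise it
does not vanish for generic `p`: `eventually_gen`, `gen_neBot`), and the identity holds at all pairs of points `x, y`. (6) Choose `j0` and `a0` with
`eval a0 (v j0) ≠ 0` (`exists_eval_ne`), `w i = eval a0 (v i)`. Then `w j0 * eval x (v i) = w i * eval x (v j0)` for all `x`, so `C (w j0) * v i = C (w i) * v j0`
(`MvPolynomial.funext`). By `euler`: `∑ i, X i * v i = f * (e * f') - f' * (e * f) = 0`. So `v j0 * ∑ i, C (w i) * X i = 0`, `v j0 ≠ 0`, hence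
`∑ i, C (w i) * X i = 0`, `w = 0` (`lf_zero`, JKu), against `w j0 ≠ 0`.
-/

namespace Pool.Agent.H21.JN

open MvPolynomial Pool.Agent.H4.JK

variable {I : Type} [Fintype I] [DecidableEq I]

theorem two_semi {𝒜 : Matrix I I (MvPolynomial I ℂ)} (hA : 𝒜.transpose = -𝒜) {e : ℕ}
    {f f' : MvPolynomial I ℂ} (hf : Irreducible f) (hne : ¬ f ∣ f') (he : f.IsHomogeneous e)
    (he' : f'.IsHomogeneous e) (χ : I → ℂ) (hχ : ∀ j, gj 𝒜 f j = C (χ j) * f)
    (hχ' : ∀ j, gj 𝒜 f' j = C (χ j) * f')
    (h : ∀ᶠ p in gen I, ∀ z : I → Polynomial ℂ, (LL 𝒜 p).mulVec z = 0 →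
      (∀ i, (z i).natDegree ≤ 2 * e - 1) →
      ∀ t t' i j, (z i).eval t * (z j).eval t' = (z j).eval t * (z i).eval t') : False := by
  classical
  set v : I → MvPolynomial I ℂ := fun i => f * pderiv i f' - f' * pderiv i f with hvdef
  have hfp : Prime f := hf.prime
  have hsk : ∀ i j, 𝒜 i j = - 𝒜 j i := fun i j => by
    have := congrFun (congrFun hA j) i
    simpa using this
  -- (1)
  have h1 : ∀ i, ∑ j, 𝒜 i j * v j = 0 := by
    intro i
    have e1 : ∑ j, 𝒜 i j * pderiv j f = - (C (χ i) * f) := by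
      rw [← hχ i, gj, ← Finset.sum_neg_distrib]
      apply Finset.sum_congr rfl
      intro j _
      rw [hsk i j]
      ring
    have e2 : ∑ j, 𝒜 i j * pderiv j f' = - (C (χ i) * f') := by
      rw [← hχ' i, gj, ← Finset.sum_neg_distrib]
      apply Finset.sum_congr rfl
      intro j _
      rw [hsk i j]
      ring
    have e3 : ∑ j, 𝒜 i j * v j =
        f * ∑ j, 𝒜 i j * pderiv j f' - f' * ∑ j, 𝒜 i j * pderiv j f := by
      rw [Finset.mul_sum, Finset.mul_sum, ← Finset.sum_sub_distrib]
      apply Finset.sum_congr rfl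
      intro j _
      simp only [hvdef]
      ring
    rw [e3, e1, e2]
    ring
  -- (2)
  have h2 : ∃ j0, v j0 ≠ 0 := by
    by_contra hc
    push Not at hc
    obtain ⟨i, hi⟩ := exists_pderiv_ne hf
    apply hi
    apply pderiv_zero_of_dvd
    have h3 : f ∣ f' * pderiv i f := by
      refine ⟨pderiv i f', ?_⟩
      have h3' := hc i
      simp only [hvdef] at h3'
      exact (sub_eq_zero.1 h3').symm
    exact (hfp.dvd_or_dvd h3).resolve_left hne
  -- (3)
  have hepos : 1 ≤ e := by
    have := irreducible_totalDegree hf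
    rw [he.totalDegree hf.ne_zero] at this
    exact this
  have h3 : ∀ i, (v i).IsHomogeneous (2 * e - 1) := by
    intro i
    have a1 := he.mul (grd_hom he' i)
    have a2 := he'.mul (grd_hom he i)
    have a3 : e + (e - 1) = 2 * e - 1 := by omega
    rw [a3] at a1 a2
    exact a1.sub a2
  -- (4)
  have h4 : ∀ᶠ p in gen I, ∀ i j,
      eval p.1 (v i) * eval p.2 (v j) = eval p.1 (v j) * eval p.2 (v i) := by
    filter_upwards [h] with p hp i j
    have a1 : (LL 𝒜 p).mulVec (fun i => line p (v i)) = 0 := by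
      funext i
      have h0 := congrArg (line p) (h1 i)
      rw [map_sum, map_zero] at h0
      simp only [map_mul] at h0
      rw [Pi.zero_apply, ← h0]
      rfl
    have a2 := hp _ a1 (fun i => line_deg (h3 i) p)
    have a3 : Polynomial.C ((line p (v i)).eval 0) * line p (v j) =
        Polynomial.C ((line p (v j)).eval 0) * line p (v i) := by
      apply Polynomial.funext
      intro t'
      rw [Polynomial.eval_mul, Polynomial.eval_mul, Polynomial.eval_C, Polynomial.eval_C]
      exact a2 0 t' i j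
    have a4 := congrArg (fun P => Polynomial.coeff P (2 * e - 1)) a3
    simp only [Polynomial.coeff_C_mul] at a4
    rw [line_coeff (h3 j), line_coeff (h3 i)] at a4
    have a6 : pt p 0 = p.1 := by
      funext k
      simp [pt]
    have a5 : ∀ i, (line p (v i)).eval 0 = eval p.1 (v i) := by
      intro i
      rw [eval_line, a6]
    rw [a5, a5] at a4
    exact a4
  -- (5)
  have h5 : ∀ (x y : I → ℂ) (i j : I),
      eval x (v i) * eval y (v j) = eval x (v j) * eval y (v i) := by
    intro x y i j
    by_contra hc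
    set P : MvPolynomial (I ⊕ I) ℂ := rename Sum.inl (v i) * rename Sum.inr (v j) -
      rename Sum.inl (v j) * rename Sum.inr (v i) with hP
    have hPe : ∀ p : (I → ℂ) × (I → ℂ), eval (Sum.elim p.1 p.2) P =
        eval p.1 (v i) * eval p.2 (v j) - eval p.1 (v j) * eval p.2 (v i) := by
      intro p
      rw [hP, map_sub, map_mul, map_mul, eval_rename, eval_rename, eval_rename, eval_rename,
        Sum.elim_comp_inl, Sum.elim_comp_inr]
    have hP0 : P ≠ 0 := by
      intro h0
      have h0' := hPe (x, y)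
      rw [h0, map_zero] at h0'
      exact hc (sub_eq_zero.1 h0'.symm)
    have hev : ∀ᶠ p in gen I, eval (Sum.elim p.1 p.2) P ≠ 0 :=
      eventually_gen.2 ⟨P, hP0, fun p hp => hp⟩
    obtain ⟨p, hp1, hp2⟩ := (hev.and h4).exists
    apply hp1
    rw [hPe p, hp2 i j, sub_self]
  -- (6)
  obtain ⟨j0, hj0⟩ := h2
  obtain ⟨a0, ha0⟩ := exists_eval_ne hj0
  have h6 : ∀ i, C (eval a0 (v j0)) * v i = C (eval a0 (v i)) * v j0 := by
    intro i
    apply MvPolynomial.funext
    intro x
    rw [map_mul, map_mul, eval_C, eval_C]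
    exact h5 a0 x j0 i
  have h7 : ∑ i, X i * v i = 0 := by
    have e3 : ∑ i, X i * v i =
        f * ∑ i, X i * pderiv i f' - f' * ∑ i, X i * pderiv i f := by
      rw [Finset.mul_sum, Finset.mul_sum, ← Finset.sum_sub_distrib]
      apply Finset.sum_congr rfl
      intro j _
      simp only [hvdef]
      ring
    rw [e3, euler he, euler he']
    ring
  have h8 : v j0 * lf (fun i => eval a0 (v i)) = 0 := by
    have h8' : v j0 * lf (fun i => eval a0 (v i)) =
        C (eval a0 (v j0)) * ∑ i, X i * v i := by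
      rw [lf, Finset.mul_sum, Finset.mul_sum]
      apply Finset.sum_congr rfl
      intro i _
      linear_combination (-(X i : MvPolynomial I ℂ)) * h6 i
    rw [h8', h7, mul_zero]
  have h9 := (mul_eq_zero.1 h8).resolve_left hj0
  exact ha0 (congrFun (lf_zero h9) j0)

end Pool.Agent.H21.JN
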