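import Pool.Agent.H21.JN.Frq
import Pool.Agent.H21.JN.JLi
import Pool.Agent.H21.JN.JacD
import Pool.Agent.H21.JN.LowP
import Pool.Agent.H21.JN.TwoS

/-!
# Module NecM (about 130 lines): few bad groups of small multiplicity

PROOF. `hR` gives `g` with a basis `b` (`Module.finBasis ℂ g`, `I = Fin n`), `𝒜 = SM b`. `exists_fix` gives `F`. Let `J` = the subtype of the
finite set in the statement, `f j = F j`. Each `f j` is an irreducible factor of `GG 𝒜`, homogeneous of degree `e j = totalDegree (f j)`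
(`factor_hom`), `e j ≤ m`, with a weight `χ j` (`choose` from `wt`). LINEAR INDEPENDENCE: `joint_li` for `K = Option I`, the operators `T (some i)` =
`P ↦ gj 𝒜 P i` (linear in `P`) and `T none` = `P ↦ ∑ i, X i * pderiv i P`, the characters `χ j i` and `e j` (`euler`; `C z * f = z • f`). Injectivity: if
`j ≠ j'` have the same weight and degree `e` then `two_semi` applies (`¬ F s ∣ F s'` from `ne`), where its last hypothesis is `gen_hasType` (for generic `p`
a decomposition `φ` of the pencil with `T.1 = kronPart ..`), `line_lin` (`LL 𝒜 p = pen ..`) and `low_prop` with `d = 2 * e - 1`: for `k ∈ T.1`, `k ≠ 0`: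
`2 * e - 1 < 2 * m ≤ k` (`1 ≤ e ≤ m`). Then `jac_bound` with `c = (T.1.map (· + 1)).sum` gives `Fintype.card J ≤ (m + 1) ^ c`.
-/

namespace Pool.Agent.H21.JN

open MvPolynomial Module Pool.Agent.H4.JK

/-- The operator `P ↦ gj 𝒜 P i` as a linear map. -/
private noncomputable def NecM_G {I : Type} [Fintype I] [DecidableEq I]
    (𝒜 : Matrix I I (MvPolynomial I ℂ)) (i : I) : MvPolynomial I ℂ →ₗ[ℂ] MvPolynomial I ℂ where
  toFun P := gj 𝒜 P i
  map_add' := by
    intro P Q
    simp only [gj, map_add, add_mul, Finset.sum_add_distrib]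
  map_smul' := by
    intro c P
    simp only [gj, Derivation.map_smul, smul_mul_assoc, Finset.smul_sum, RingHom.id_apply]

/-- Euler's operator as a linear map. -/
private noncomputable def NecM_E (I : Type) [Fintype I] [DecidableEq I] :
    MvPolynomial I ℂ →ₗ[ℂ] MvPolynomial I ℂ where
  toFun P := ∑ i, X i * pderiv i P
  map_add' := by
    intro P Q
    simp only [map_add, mul_add, Finset.sum_add_distrib]
  map_smul' := by
    intro c P
    simp only [Derivation.map_smul, mul_smul_comm, Finset.smul_sum, RingHom.id_apply]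

private theorem NecM_generic {I : Type} [Fintype I] [DecidableEq I]
    {𝒜 : Matrix I I (MvPolynomial I ℂ)} (hlin : Lin 𝒜) (T : Multiset ℕ × Multiset (Multiset ℕ))
    (e : ℕ) (hK : ∀ k ∈ T.1, k ≠ 0 → 2 * e - 1 < k) (h0 : T.1.count 0 ≤ 1)
    {p : (I → ℂ) × (I → ℂ)}
    (hT : HasType (mform (𝒜.map (eval p.1))) (mform (𝒜.map (eval p.2))) T) :
    ∀ z : I → Polynomial ℂ, (LL 𝒜 p).mulVec z = 0 →
      (∀ i, (z i).natDegree ≤ 2 * e - 1) →
      ∀ t t' i j, (z i).eval t * (z j).eval t' = (z j).eval t * (z i).eval t' := by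
  obtain ⟨ι, hι, bl, hpos, hty, hdec⟩ := hT
  obtain ⟨φ, hφ⟩ := hdec
  have hT1 : T.1 = kronPart ((Finset.univ : Finset ι).val.map bl) := by rw [← hty]; rfl
  intro z hz hd t t' i j
  rw [line_lin hlin p] at hz
  rw [hT1] at hK h0
  exact low_prop φ hφ (2 * e - 1) hK h0 z hz hd t t' i j

open Classical in
theorem nec_m (T : Multiset ℕ × Multiset (Multiset ℕ)) (hR : Realisable T) (m : ℕ)
    (h1 : ∀ k ∈ T.1, k ≠ 0 → 2 * m ≤ k) (h0 : T.1.count 0 ≤ 1) :
    (T.2.toFinset.filter fun s => Bad s ∧ T.2.count s ≤ m).card ≤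
      (m + 1) ^ (T.1.map (· + 1)).sum := by
  obtain ⟨g, _, _, hfd, hinv⟩ := hR
  let b := Module.finBasis ℂ g
  obtain ⟨F, hS, hfr⟩ := exists_fix b T hinv m
  have hmem : ∀ s ∈ (T.2.toFinset.filter fun s => Bad s ∧ T.2.count s ≤ m),
      s ∈ T.2 ∧ Bad s ∧ T.2.count s ≤ m := by
    intro s hs
    obtain ⟨h2, h3⟩ := Finset.mem_filter.1 hs
    exact ⟨Multiset.mem_toFinset.1 h2, h3⟩
  generalize (T.2.toFinset.filter fun s => Bad s ∧ T.2.count s ≤ m) = Sg at hmem ⊢
  have hfac : ∀ s : Sg, F s.1 ∈ UniqueFactorizationMonoid.factors (GG (SM b)) :=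
    fun s => hS.fac s.1 (hmem s.1 s.2).1 (hmem s.1 s.2).2.1 (hmem s.1 s.2).2.2
  have hirr : ∀ s : Sg, Irreducible (F s.1) :=
    fun s => UniqueFactorizationMonoid.irreducible_of_factor _ (hfac s)
  have hhom : ∀ s : Sg, (F s.1).IsHomogeneous (F s.1).totalDegree :=
    fun s => factor_hom (SM_lin b) (hfac s)
  have hdeg : ∀ s : Sg, (F s.1).totalDegree ≤ m :=
    fun s => hS.deg s.1 (hmem s.1 s.2).1 (hmem s.1 s.2).2.1 (hmem s.1 s.2).2.2
  have hw : ∀ s : Sg, ∃ χ : Fin (finrank ℂ g) → ℂ,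
      ∀ j, gj (SM b) (F s.1) j = C (χ j) * F s.1 :=
    fun s => hS.wt s.1 (hmem s.1 s.2).1 (hmem s.1 s.2).2.1 (hmem s.1 s.2).2.2
  choose χ hχ using hw
  have hli : LinearIndependent ℂ (fun s : Sg => F s.1) := by
    refine joint_li (K := Option (Fin (finrank ℂ g)))
      (fun k => k.elim (NecM_E (Fin (finrank ℂ g))) (fun i => NecM_G (SM b) i))
      (fun s : Sg => F s.1)
      (fun s k => k.elim (((F s.1).totalDegree : ℕ) : ℂ) (fun i => χ s i))
      (fun s => (hirr s).ne_zero) ?_ ?_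
    · intro s k
      cases k with
      | none =>
        show (∑ i, X i * pderiv i (F s.1) : MvPolynomial (Fin (finrank ℂ g)) ℂ) =
          (((F s.1).totalDegree : ℕ) : ℂ) • F s.1
        rw [euler (hhom s), MvPolynomial.smul_eq_C_mul, map_natCast]
      | some i =>
        show gj (SM b) (F s.1) i = χ s i • F s.1
        rw [hχ s i, MvPolynomial.smul_eq_C_mul]
    · intro s s' hss
      by_contra hne
      have h2 : (((F s.1).totalDegree : ℕ) : ℂ) = (((F s'.1).totalDegree : ℕ) : ℂ) :=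
        congrFun hss none
      have h3 : ∀ i, χ s i = χ s' i := fun i => congrFun hss (some i)
      have h4 : (F s.1).totalDegree = (F s'.1).totalDegree := by exact_mod_cast h2
      have h5 : s.1 ≠ s'.1 := fun h => hne (Subtype.ext h)
      have h6 := hdeg s
      have h7 : ∀ k ∈ T.1, k ≠ 0 → 2 * (F s.1).totalDegree - 1 < k := by
        intro k hk hk0
        have := h1 k hk hk0
        omega
      refine two_semi (SM_skew b) (hirr s)
        (hS.ne s.1 (hmem s.1 s.2).1 (hmem s.1 s.2).2.1 (hmem s.1 s.2).2.2 s'.1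
          (hmem s'.1 s'.2).1 (hmem s'.1 s'.2).2.1 (hmem s'.1 s'.2).2.2 h5)
        (hhom s) (by rw [h4]; exact hhom s') (χ s) (hχ s)
        (fun j => by rw [h3 j]; exact hχ s' j) ?_
      filter_upwards [gen_hasType b hinv] with p hp
      exact NecM_generic (SM_lin b) T _ h7 h0 hp
  have h2 := jac_bound (fun s : Sg => F s.1) hli m (T.1.map (· + 1)).sum hdeg (by
    refine hfr.mono ?_
    rintro p ⟨L, hL1, hL2⟩
    exact ⟨L, hL1, fun s => hL2 s.1 (hmem s.1 s.2).1 (hmem s.1 s.2).2.1 (hmem s.1 s.2).2.2⟩)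
  rwa [Fintype.card_coe] at h2

end Pool.Agent.H21.JN
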