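import Pool.Agent.H21.JN.NecM
import Pool.Agent.H21.JR.FinX

/-!
# Module Thr (about 130 lines): the threshold

PROOFS. `fam`: the groups `s_i = {i + 1, i + 1}`, `i < M`, are different, bad, and have positive members. Put
`T = (K, ∑ i ∈ range M, m • {s_i})` (`Multiset`), so `T.2.count s_i = m` and every member of `T.2` is some `s_i` (`1 ≤ m`); `IsType T`. If `1 ∈ K` or
`2 ≤ K.count 0` use `realisable_main` (JKe). If `k ∈ K`, `2 ≤ k`, `k + 1 ≤ 2 * m`: `engine` (Pool/Agent/H21/JR/CombX.lean or FinX.lean) with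
`D = {(k, m)}` (so `2 ≤ m`) and `l = 0`: `count s - 0 = m` is in the closure of `{m}`. `threshold`: if the right side fails, all `k ∈ K`, `k ≠ 0`, satisfy
`2 * m ≤ k`, and `nec_m` bounds the number of the bad groups of multiplicity `m` (a subset of those with `count ≤ m`); take `M` larger than the bound.
-/

namespace Pool.Agent.H21.JN

open Pool.Agent.H4.JK

private def Thr_s (i : ℕ) : Multiset ℕ := Multiset.replicate 2 (i + 1)

private theorem Thr_inj : Function.Injective Thr_s := by
  intro i j h
  have h1 : i + 1 ∈ Thr_s j := by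
    rw [← h]
    exact Multiset.mem_replicate.2 ⟨by norm_num, rfl⟩
  have h2 := Multiset.eq_of_mem_replicate h1
  omega

private theorem Thr_bad (i : ℕ) : Bad (Thr_s i) := by
  refine ⟨i + 1, ?_, fun m' hm' => (Multiset.eq_of_mem_replicate hm').le⟩
  unfold Thr_s
  rw [Multiset.count_replicate_self]

private noncomputable def Thr_G (m M : ℕ) : Multiset (Multiset ℕ) :=
  ∑ i ∈ Finset.range M, m • ({Thr_s i} : Multiset (Multiset ℕ))

private theorem Thr_mem {m M : ℕ} {x : Multiset ℕ} (hx : x ∈ Thr_G m M) :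
    ∃ i, i < M ∧ x = Thr_s i := by
  unfold Thr_G at hx
  rw [Multiset.mem_sum] at hx
  obtain ⟨i, hi, hx⟩ := hx
  refine ⟨i, Finset.mem_range.1 hi, ?_⟩
  exact Multiset.mem_singleton.1 (Multiset.mem_of_mem_nsmul hx)

open Classical in
private theorem Thr_count (m M i : ℕ) (hi : i < M) : (Thr_G m M).count (Thr_s i) = m := by
  unfold Thr_G
  rw [Multiset.count_sum', Finset.sum_eq_single i]
  · rw [Multiset.count_nsmul, Multiset.count_singleton_self, mul_one]
  · intro j _ hj
    rw [Multiset.count_nsmul, Multiset.count_singleton, if_neg, mul_zero]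
    exact fun h => hj (Thr_inj h).symm
  · intro h
    exact absurd (Finset.mem_range.2 hi) h

open Classical in
theorem fam (K : Multiset ℕ) (m : ℕ) (hm : 1 ≤ m)
    (h : 1 ∈ K ∨ 2 ≤ K.count 0 ∨ ∃ k ∈ K, 2 ≤ k ∧ k + 1 ≤ 2 * m) (M : ℕ) :
    ∃ T : Multiset ℕ × Multiset (Multiset ℕ), IsType T ∧ Realisable T ∧ T.1 = K ∧
      M ≤ (T.2.toFinset.filter fun s => Bad s ∧ T.2.count s = m).card := by
  have hT : IsType (K, Thr_G m M) := by
    intro s hs
    obtain ⟨i, _, rfl⟩ := Thr_mem hs
    refine ⟨fun h0 => ?_, fun n hn => ?_⟩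
    · have h1 : Multiset.card (Thr_s i) = 0 := by rw [h0, Multiset.card_zero]
      unfold Thr_s at h1
      rw [Multiset.card_replicate] at h1
      omega
    · rw [Multiset.eq_of_mem_replicate hn]
      omega
  refine ⟨(K, Thr_G m M), hT, ?_, rfl, ?_⟩
  · rcases h with h | h | ⟨k, hk, hk2, hkm⟩
    · exact realisable_main _ hT (Or.inl h)
    · exact realisable_main _ hT (Or.inr h)
    · refine Pool.Agent.H21.JR.engine (K, Thr_G m M) hT {(k, m)} ?_ ?_ (fun _ => 0) ?_ ?_
      · rw [Multiset.map_singleton]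
        exact Multiset.singleton_le.2 hk
      · intro d hd
        rw [Multiset.mem_singleton] at hd
        subst hd
        exact ⟨hk2, by omega, hkm⟩
      · intro s hs _
        obtain ⟨i, hi, rfl⟩ := Thr_mem hs
        refine ⟨Nat.zero_le _, ?_⟩
        have hc : (Thr_G m M).count (Thr_s i) = m := Thr_count m M i hi
        show (Thr_G m M).count (Thr_s i) - 0 ∈ _
        rw [hc, Nat.sub_zero]
        exact AddSubmonoid.subset_closure ⟨(k, m), Multiset.mem_singleton_self _, rfl⟩
      · simp
  · have hsub : (Finset.range M).image Thr_s ⊆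
        ((K, Thr_G m M).2.toFinset.filter fun s => Bad s ∧ (K, Thr_G m M).2.count s = m) := by
      intro x hx
      obtain ⟨i, hi, rfl⟩ := Finset.mem_image.1 hx
      have hi' := Finset.mem_range.1 hi
      have hc : (Thr_G m M).count (Thr_s i) = m := Thr_count m M i hi'
      refine Finset.mem_filter.2 ⟨?_, Thr_bad i, hc⟩
      rw [Multiset.mem_toFinset]
      exact Multiset.count_pos.1 (by rw [hc]; exact hm)
    calc M = ((Finset.range M).image Thr_s).card := by
          rw [Finset.card_image_of_injective _ Thr_inj, Finset.card_range]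
      _ ≤ _ := Finset.card_le_card hsub

open Classical in
theorem threshold (K : Multiset ℕ) (m : ℕ) (hm : 1 ≤ m) :
    (∀ M : ℕ, ∃ T : Multiset ℕ × Multiset (Multiset ℕ), IsType T ∧ Realisable T ∧ T.1 = K ∧
      M ≤ (T.2.toFinset.filter fun s => Bad s ∧ T.2.count s = m).card) ↔
    (1 ∈ K ∨ 2 ≤ K.count 0 ∨ ∃ k ∈ K, 2 ≤ k ∧ k + 1 ≤ 2 * m) := by
  constructor
  · intro h
    by_contra hcon
    push Not at hcon
    obtain ⟨h1, h0, hk⟩ := hcon
    obtain ⟨T, _, hR, hTK, hM⟩ := h ((m + 1) ^ (K.map (· + 1)).sum + 1)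
    have hn := nec_m T hR m (by
      intro k hkT hk0
      rw [hTK] at hkT
      have hk1 : k ≠ 1 := by
        rintro rfl
        exact h1 hkT
      have := hk k hkT (by omega)
      omega) (by
      rw [hTK]
      omega)
    rw [hTK] at hn
    have hle : (T.2.toFinset.filter fun s => Bad s ∧ T.2.count s = m).card ≤
        (T.2.toFinset.filter fun s => Bad s ∧ T.2.count s ≤ m).card := by
      refine Finset.card_le_card fun s hs => ?_
      rw [Finset.mem_filter] at hs ⊢
      exact ⟨hs.1, hs.2.1, hs.2.2.le⟩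
    have h3 := hM.trans hle
    have h4 : (T.2.toFinset.filter fun s => Bad s ∧ T.2.count s ≤ m).card ≤
        (m + 1) ^ (K.map (· + 1)).sum := by
      convert hn
    omega
  · intro h M
    exact fam K m hm h M

end Pool.Agent.H21.JN
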